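import Pool.Agent.H74.SX.Fr

set_option autoImplicit false

/-!
# [H74 SX St] the trace inequality for the half strip (helper30)

`g t = ∫ (V (t + iθ) - m t)² dθ`; `g' ≥ -E`, `E t = ∫ ‖∇V (t + iθ)‖² dθ`, by the inequality of Wirtinger; `g T ≤ E T` is small
for some `T`; Fubini on the strip.
-/

namespace Pool.Agent.H74.SX

open MeasureTheory Set Filter Topology

namespace StB

theorem sq_le (L : ℂ →L[ℝ] ℝ) : (L 1) ^ 2 + (L Complex.I) ^ 2 ≤ ‖L‖ ^ 2 := by
  obtain ⟨s, hs⟩ : ∃ s, s = (L 1) ^ 2 + (L Complex.I) ^ 2 := ⟨_, rfl⟩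
  obtain ⟨z, hz⟩ : ∃ z : ℂ, z = ⟨L 1, L Complex.I⟩ := ⟨_, rfl⟩
  have hs0 : 0 ≤ s := by rw [hs]; positivity
  have h1 : L z = s := by
    have e : z = (L 1) • (1 : ℂ) + (L Complex.I) • Complex.I := by
      rw [hz]; apply Complex.ext <;> simp
    rw [e, map_add, map_smul, map_smul, hs, smul_eq_mul, smul_eq_mul]; ring
  have h2 : ‖z‖ ^ 2 = s := by
    rw [← Complex.normSq_eq_norm_sq, Complex.normSq_apply, hz, hs]; ring
  have h3 := L.le_opNorm z
  rw [h1, Real.norm_eq_abs, abs_of_nonneg hs0] at h3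
  rw [← hs]
  rcases hs0.eq_or_lt with h0 | h0
  · rw [← h0]; positivity
  · have hz0 : 0 < ‖z‖ := by
      rcases (norm_nonneg z).eq_or_lt with h | h
      · rw [← h] at h2; simp at h2; linarith
      · exact h
    have h4 : ‖z‖ ≤ ‖L‖ := by
      rw [← h2] at h3
      nlinarith
    rw [← h2]
    exact pow_le_pow_left₀ hz0.le h4 2

theorem isOpen_half (r : ℝ) : IsOpen {ζ : ℂ | r < ζ.re} := isOpen_lt continuous_const Complex.continuous_re

/-- continuity along the rectangle -/
theorem cont_line {F : Type*} [TopologicalSpace F] {r : ℝ} {f : ℂ → F} (hf : ContinuousOn f {ζ | r < ζ.re}) {t : ℝ} (ht : r < t) :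
    Continuous fun θ : ℝ => f (t + θ * Complex.I) := by
  refine hf.comp_continuous (by fun_prop) fun θ => ?_
  simpa using ht

theorem hasDeriv_line {r : ℝ} {V : ℂ → ℝ} (hV : ContDiffOn ℝ 1 V {ζ | r < ζ.re}) {t θ : ℝ} (ht : r < t) :
    HasDerivAt (fun t : ℝ => V (t + θ * Complex.I)) (fderiv ℝ V (t + θ * Complex.I) 1) t := by
  have hm : (t : ℂ) + θ * Complex.I ∈ {ζ : ℂ | r < ζ.re} := by simpa using ht
  have h1 : HasFDerivAt V (fderiv ℝ V (t + θ * Complex.I)) (t + θ * Complex.I) :=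
    ((hV.differentiableOn (by norm_num)).differentiableAt ((isOpen_half r).mem_nhds hm)).hasFDerivAt
  have h2 : HasDerivAt (fun t : ℝ => (t : ℂ) + θ * Complex.I) 1 t := by
    simpa using (Complex.ofRealCLM.hasDerivAt (x := t)).add_const (θ * Complex.I)
  exact h1.comp_hasDerivAt t h2

theorem hasDeriv_line' {r : ℝ} {V : ℂ → ℝ} (hV : ContDiffOn ℝ 1 V {ζ | r < ζ.re}) {t θ : ℝ} (ht : r < t) :
    HasDerivAt (fun θ : ℝ => V (t + θ * Complex.I)) (fderiv ℝ V (t + θ * Complex.I) Complex.I) θ := by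
  have hm : (t : ℂ) + θ * Complex.I ∈ {ζ : ℂ | r < ζ.re} := by simpa using ht
  have h1 : HasFDerivAt V (fderiv ℝ V (t + θ * Complex.I)) (t + θ * Complex.I) :=
    ((hV.differentiableOn (by norm_num)).differentiableAt ((isOpen_half r).mem_nhds hm)).hasFDerivAt
  have h2 : HasDerivAt (fun θ : ℝ => (t : ℂ) + θ * Complex.I) Complex.I θ := by
    have := ((Complex.ofRealCLM.hasDerivAt (x := θ)).mul_const Complex.I).const_add (t : ℂ)
    simpa using this
  exact h1.comp_hasDerivAt θ h2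

theorem cont_fderiv {r : ℝ} {V : ℂ → ℝ} (hV : ContDiffOn ℝ 1 V {ζ | r < ζ.re}) :
    ContinuousOn (fderiv ℝ V) {ζ | r < ζ.re} := hV.continuousOn_fderiv_of_isOpen (isOpen_half r) (by norm_num)

theorem hasDeriv_int {r : ℝ} {V : ℂ → ℝ} (hV : ContDiffOn ℝ 1 V {ζ | r < ζ.re}) {t : ℝ} (ht : r < t) :
    HasDerivAt (fun t : ℝ => ∫ θ in (0 : ℝ)..(2 * Real.pi), V (t + θ * Complex.I))
      (∫ θ in (0 : ℝ)..(2 * Real.pi), fderiv ℝ V (t + θ * Complex.I) 1) t := by
  obtain ⟨δ, hδ⟩ : ∃ δ, δ = (t - r) / 2 := ⟨_, rfl⟩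
  have hδ0 : 0 < δ := by rw [hδ]; linarith
  have hcD : ContinuousOn (fun ζ => fderiv ℝ V ζ 1) {ζ | r < ζ.re} := (cont_fderiv hV).clm_apply continuousOn_const
  have hK : IsCompact (Icc (t - δ) (t + δ) ×ˢ Icc (0 : ℝ) (2 * Real.pi)) := isCompact_Icc.prod isCompact_Icc
  have hc2 : ContinuousOn (fun p : ℝ × ℝ => fderiv ℝ V (p.1 + p.2 * Complex.I) 1)
      (Icc (t - δ) (t + δ) ×ˢ Icc (0 : ℝ) (2 * Real.pi)) := by
    refine hcD.comp (f := fun p : ℝ × ℝ => (p.1 : ℂ) + p.2 * Complex.I) (by fun_prop) fun p hp => ?_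
    have : t - δ ≤ p.1 := hp.1.1
    show r < ((p.1 : ℂ) + p.2 * Complex.I).re
    simp
    linarith
  obtain ⟨C, hC⟩ := hK.exists_bound_of_continuousOn hc2
  refine (intervalIntegral.hasDerivAt_integral_of_dominated_loc_of_deriv_le (μ := volume) (bound := fun _ => C)
    (F' := fun t θ => fderiv ℝ V ((t : ℝ) + (θ : ℝ) * Complex.I) 1)
    (s := Ioo (t - δ) (t + δ)) (Ioo_mem_nhds (by linarith) (by linarith)) ?_ ?_ ?_ ?_ ?_ ?_).2
  · filter_upwards [Ioi_mem_nhds ht] with x hx
    exact (cont_line hV.continuousOn hx).aestronglyMeasurable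
  · exact (cont_line hV.continuousOn ht).intervalIntegrable _ _
  · exact (cont_line hcD ht).aestronglyMeasurable
  · refine Eventually.of_forall fun θ hθ x hx => ?_
    rw [uIoc_of_le (by positivity)] at hθ
    exact hC (x, θ) ⟨⟨hx.1.le, hx.2.le⟩, ⟨hθ.1.le, hθ.2⟩⟩
  · exact intervalIntegrable_const
  · refine Eventually.of_forall fun θ hθ x hx => ?_
    exact hasDeriv_line hV (by have := hx.1; linarith)

/-- the integral over the half strip -/
theorem strip_integral {h : ℂ → ℝ} (hi : IntegrableOn h Str) :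
    IntegrableOn (fun t : ℝ => ∫ θ in (0 : ℝ)..(2 * Real.pi), h (t + θ * Complex.I)) (Ioi 0) ∧
    ∫ ζ in Str, h ζ = ∫ t in Ioi (0 : ℝ), ∫ θ in (0 : ℝ)..(2 * Real.pi), h (t + θ * Complex.I) := by
  obtain ⟨e, he⟩ : ∃ e : ℂ ≃ᵐ ℝ × ℝ, e = Complex.measurableEquivRealProd := ⟨_, rfl⟩
  have hmp : MeasurePreserving e.symm volume volume := by
    rw [he]; exact Complex.volume_preserving_equiv_real_prod.symm
  have hpre : e.symm ⁻¹' Str = Ioi (0 : ℝ) ×ˢ Ioo (0 : ℝ) (2 * Real.pi) := by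
    ext p
    rw [he]
    simp [Str, Complex.measurableEquivRealProd_symm_apply]
  have hfe : ∀ p : ℝ × ℝ, e.symm p = (p.1 : ℂ) + p.2 * Complex.I := by
    intro p
    rw [he, Complex.measurableEquivRealProd_symm_apply]
    apply Complex.ext <;> simp
  have h1 : IntegrableOn (fun p : ℝ × ℝ => h (p.1 + p.2 * Complex.I)) (Ioi (0 : ℝ) ×ˢ Ioo (0 : ℝ) (2 * Real.pi)) := by
    have := (hmp.integrableOn_comp_preimage e.symm.measurableEmbedding (f := h) (s := Str)).2 hi
    rw [hpre] at this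
    refine this.congr_fun (fun p _ => ?_) (measurableSet_Ioi.prod measurableSet_Ioo)
    show h (e.symm p) = _
    rw [hfe]
  have h2 : ∫ ζ in Str, h ζ = ∫ p in (Ioi (0 : ℝ) ×ˢ Ioo (0 : ℝ) (2 * Real.pi)), h ((p : ℝ × ℝ).1 + p.2 * Complex.I) := by
    rw [← hmp.setIntegral_preimage_emb e.symm.measurableEmbedding, hpre]
    refine setIntegral_congr_fun (measurableSet_Ioi.prod measurableSet_Ioo) fun p _ => ?_
    show h (e.symm p) = _
    rw [hfe]
  have hpi : (0 : ℝ) ≤ 2 * Real.pi := by positivity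
  have h3 : ∀ t : ℝ, ∫ θ in (0 : ℝ)..(2 * Real.pi), h (t + θ * Complex.I) =
      ∫ θ in Ioo (0 : ℝ) (2 * Real.pi), h (t + θ * Complex.I) := fun t => by
    rw [intervalIntegral.integral_of_le hpi, integral_Ioc_eq_integral_Ioo]
  simp_rw [h3]
  constructor
  · have h4 := h1
    rw [IntegrableOn, Measure.volume_eq_prod, ← Measure.prod_restrict] at h4
    exact h4.integral_prod_left
  · rw [h2, Measure.volume_eq_prod, setIntegral_prod _ (by rw [← Measure.volume_eq_prod]; exact h1)]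

theorem exists_small {E : ℝ → ℝ} (hE : IntegrableOn E (Ioi 0)) {ε : ℝ} (hε : 0 < ε) : ∃ T : ℝ, 0 < T ∧ E T < ε := by
  by_contra hcon
  push Not at hcon
  have h1 : IntegrableOn (fun _ : ℝ => ε) (Ioi (0 : ℝ)) := by
    refine Integrable.mono' hE aestronglyMeasurable_const ?_
    refine (ae_restrict_iff' measurableSet_Ioi).2 (Eventually.of_forall fun t ht => ?_)
    rw [Real.norm_eq_abs, abs_of_pos hε]
    exact hcon t ht
  rw [integrableOn_const_iff] at h1
  rcases h1 with h | h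
  · simp [hε.ne'] at h
  · simp at h

end StB

open StB in
/-- the trace inequality for the half strip -/
theorem st (hwi : WiStmt) : StStmt := by
  intro r V hr hV hper hint
  obtain ⟨h, hh⟩ : ∃ h : ℂ → ℝ, h = fun ζ => ‖fderiv ℝ V ζ‖ ^ 2 := ⟨_, rfl⟩
  have hVc := hV.continuousOn
  have hfc := cont_fderiv hV
  have hhc : ContinuousOn h {ζ | r < ζ.re} := by rw [hh]; exact hfc.norm.pow 2
  have h1c : ContinuousOn (fun ζ => fderiv ℝ V ζ 1) {ζ | r < ζ.re} := hfc.clm_apply continuousOn_const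
  have h2c : ContinuousOn (fun ζ => fderiv ℝ V ζ Complex.I) {ζ | r < ζ.re} := hfc.clm_apply continuousOn_const
  obtain ⟨E, hE⟩ : ∃ E : ℝ → ℝ, E = fun t : ℝ => ∫ θ in (0 : ℝ)..(2 * Real.pi), h (t + θ * Complex.I) := ⟨_, rfl⟩
  have hstr := strip_integral (h := h) (by rw [hh]; exact hint)
  rw [← hE] at hstr
  obtain ⟨m, hm⟩ : ∃ m : ℝ → ℝ, m = fun t : ℝ => (∫ y in (0 : ℝ)..(2 * Real.pi), V (t + y * Complex.I)) / (2 * Real.pi) := ⟨_, rfl⟩
  obtain ⟨g, hg⟩ : ∃ g : ℝ → ℝ, g = fun t : ℝ => ∫ θ in (0 : ℝ)..(2 * Real.pi), (V (t + θ * Complex.I) - m t) ^ 2 := ⟨_, rfl⟩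
  have hpi : (0 : ℝ) < 2 * Real.pi := by positivity
  -- `g` in expanded form
  have hgx : ∀ t, r < t → g t = (∫ θ in (0 : ℝ)..(2 * Real.pi), V (t + θ * Complex.I) ^ 2) -
      (∫ y in (0 : ℝ)..(2 * Real.pi), V (t + y * Complex.I)) ^ 2 / (2 * Real.pi) := by
    intro t ht
    have hc := cont_line hVc ht
    have i1 : IntervalIntegrable (fun θ : ℝ => V (t + θ * Complex.I) ^ 2) volume 0 (2 * Real.pi) :=
      (hc.pow 2).intervalIntegrable _ _
    have i2 : IntervalIntegrable (fun θ : ℝ => 2 * m t * V (t + θ * Complex.I)) volume 0 (2 * Real.pi) :=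
      (continuous_const.mul hc).intervalIntegrable _ _
    rw [hg]
    simp only
    rw [intervalIntegral.integral_congr (g := fun θ : ℝ => V (t + θ * Complex.I) ^ 2 - 2 * m t * V (t + θ * Complex.I) + m t ^ 2)
      (fun θ _ => by ring), intervalIntegral.integral_add (i1.sub i2) intervalIntegrable_const,
      intervalIntegral.integral_sub i1 i2, intervalIntegral.integral_const_mul, intervalIntegral.integral_const, hm]
    simp only [smul_eq_mul, sub_zero]
    generalize (∫ y in (0 : ℝ)..(2 * Real.pi), V (t + y * Complex.I)) = X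
    generalize (∫ y in (0 : ℝ)..(2 * Real.pi), V (t + y * Complex.I) ^ 2) = Y
    have hp0 : Real.pi ≠ 0 := Real.pi_ne_zero
    field_simp
    ring
  -- the square
  have hV2 : ContDiffOn ℝ 1 (fun ζ => V ζ ^ 2) {ζ | r < ζ.re} := hV.pow 2
  have hfd2 : ∀ ζ : ℂ, r < ζ.re → fderiv ℝ (fun ζ => V ζ ^ 2) ζ 1 = 2 * V ζ * fderiv ℝ V ζ 1 := by
    intro ζ hζ
    have hd : DifferentiableAt ℝ V ζ := (hV.differentiableOn (by norm_num)).differentiableAt ((isOpen_half r).mem_nhds hζ)
    rw [fderiv_fun_pow 2 hd]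
    simp
  -- derivative of `g`
  have hgd : ∀ t, r < t → HasDerivAt g (∫ θ in (0 : ℝ)..(2 * Real.pi), 2 * (V (t + θ * Complex.I) - m t) *
      fderiv ℝ V (t + θ * Complex.I) 1) t := by
    intro t ht
    have d1 := hasDeriv_int hV2 ht
    have d2 := hasDeriv_int hV ht
    have d3 := d1.sub ((d2.pow 2).div_const (2 * Real.pi))
    have hev : g =ᶠ[𝓝 t] ((fun t : ℝ => ∫ θ in (0 : ℝ)..(2 * Real.pi), V (t + θ * Complex.I) ^ 2) -
      fun t : ℝ => (∫ y in (0 : ℝ)..(2 * Real.pi), V (t + y * Complex.I)) ^ 2 / (2 * Real.pi)) := by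
      filter_upwards [Ioi_mem_nhds ht] with x hx
      exact hgx x hx
    refine (d3.congr_of_eventuallyEq hev).congr_deriv ?_
    have hc := cont_line hVc ht
    have hc1 := cont_line h1c ht
    have i1 : IntervalIntegrable (fun θ : ℝ => 2 * (V (t + θ * Complex.I) * fderiv ℝ V (t + θ * Complex.I) 1)) volume 0 (2 * Real.pi) :=
      (continuous_const.mul (hc.mul hc1)).intervalIntegrable _ _
    have i2 : IntervalIntegrable (fun θ : ℝ => 2 * m t * fderiv ℝ V (t + θ * Complex.I) 1) volume 0 (2 * Real.pi) :=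
      (continuous_const.mul hc1).intervalIntegrable _ _
    rw [intervalIntegral.integral_congr (g := fun θ : ℝ => 2 * (V (t + θ * Complex.I) * fderiv ℝ V (t + θ * Complex.I) 1))
      (fun θ _ => by
        simp only
        rw [hfd2 _ (by simpa using ht)]; ring),
      intervalIntegral.integral_congr (g := fun θ : ℝ => 2 * (V (t + θ * Complex.I) * fderiv ℝ V (t + θ * Complex.I) 1) -
        2 * m t * fderiv ℝ V (t + θ * Complex.I) 1) (a := 0) (b := 2 * Real.pi)
        (f := fun θ : ℝ => 2 * (V (t + θ * Complex.I) - m t) * fderiv ℝ V (t + θ * Complex.I) 1)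
      (fun θ _ => by ring), intervalIntegral.integral_sub i1 i2, intervalIntegral.integral_const_mul,
      intervalIntegral.integral_const_mul, hm]
    simp only
    ring
  -- Wirtinger on the line `t`
  have hW : ∀ t, r < t → g t ≤ ∫ θ in (0 : ℝ)..(2 * Real.pi), (fderiv ℝ V (t + θ * Complex.I) Complex.I) ^ 2 := by
    intro t ht
    have hder : ∀ θ : ℝ, HasDerivAt (fun θ : ℝ => V (t + θ * Complex.I)) (fderiv ℝ V (t + θ * Complex.I) Complex.I) θ :=
      fun θ => hasDeriv_line' hV ht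
    have hdd : deriv (fun θ : ℝ => V (t + θ * Complex.I)) = fun θ : ℝ => fderiv ℝ V (t + θ * Complex.I) Complex.I :=
      funext fun θ => (hder θ).deriv
    have hC1 : ContDiff ℝ 1 (fun θ : ℝ => V (t + θ * Complex.I)) := by
      rw [contDiff_one_iff_deriv]
      exact ⟨fun θ => (hder θ).differentiableAt, by rw [hdd]; exact cont_line h2c ht⟩
    have hP : Function.Periodic (fun θ : ℝ => V (t + θ * Complex.I)) (2 * Real.pi) := by
      intro θ
      show V (t + ((θ + 2 * Real.pi : ℝ) : ℂ) * Complex.I) = V (t + θ * Complex.I)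
      rw [← hper (t + θ * Complex.I)]
      congr 1
      push_cast
      ring
    have := hwi _ hC1 hP
    rw [hdd] at this
    rw [hg, hm]
    exact this
  -- the derivative bound
  have hgE : ∀ t, r < t → -(E t) ≤ ∫ θ in (0 : ℝ)..(2 * Real.pi), 2 * (V (t + θ * Complex.I) - m t) *
      fderiv ℝ V (t + θ * Complex.I) 1 := by
    intro t ht
    have hc := cont_line hVc ht
    have hc1 := cont_line h1c ht
    have hc2 := cont_line h2c ht
    have hch := cont_line hhc ht
    have j1 : IntervalIntegrable (fun θ : ℝ => (V (t + θ * Complex.I) - m t) ^ 2) volume 0 (2 * Real.pi) :=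
      ((hc.sub continuous_const).pow 2).intervalIntegrable _ _
    have j2 : IntervalIntegrable (fun θ : ℝ => (fderiv ℝ V (t + θ * Complex.I) 1) ^ 2) volume 0 (2 * Real.pi) :=
      (hc1.pow 2).intervalIntegrable _ _
    have j3 : IntervalIntegrable (fun θ : ℝ => (fderiv ℝ V (t + θ * Complex.I) Complex.I) ^ 2) volume 0 (2 * Real.pi) :=
      (hc2.pow 2).intervalIntegrable _ _
    have k1 : ∫ θ in (0 : ℝ)..(2 * Real.pi), -((V (t + θ * Complex.I) - m t) ^ 2 + (fderiv ℝ V (t + θ * Complex.I) 1) ^ 2) ≤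
        ∫ θ in (0 : ℝ)..(2 * Real.pi), 2 * (V (t + θ * Complex.I) - m t) * fderiv ℝ V (t + θ * Complex.I) 1 := by
      refine intervalIntegral.integral_mono_on hpi.le (j1.add j2).neg
        (((continuous_const.mul (hc.sub continuous_const)).mul hc1).intervalIntegrable _ _) fun θ _ => ?_
      nlinarith [sq_nonneg ((V (t + θ * Complex.I) - m t) + fderiv ℝ V (t + θ * Complex.I) 1)]
    have k2 : ∫ θ in (0 : ℝ)..(2 * Real.pi), ((fderiv ℝ V (t + θ * Complex.I) 1) ^ 2 +
        (fderiv ℝ V (t + θ * Complex.I) Complex.I) ^ 2) ≤ E t := by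
      rw [hE]
      refine intervalIntegral.integral_mono_on hpi.le (j2.add j3) (hch.intervalIntegrable _ _) fun θ _ => ?_
      rw [hh]
      exact sq_le _
    have k3 := hW t ht
    have k4 : g t = ∫ θ in (0 : ℝ)..(2 * Real.pi), (V (t + θ * Complex.I) - m t) ^ 2 := by rw [hg]
    rw [intervalIntegral.integral_neg, intervalIntegral.integral_add j1 j2] at k1
    rw [intervalIntegral.integral_add j2 j3] at k2
    linarith
  -- `g T ≤ E T`
  have hgT : ∀ t, r < t → g t ≤ E t := by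
    intro t ht
    have hc2 := cont_line h2c ht
    have hch := cont_line hhc ht
    refine (hW t ht).trans ?_
    rw [hE]
    refine intervalIntegral.integral_mono_on hpi.le ((hc2.pow 2).intervalIntegrable _ _) (hch.intervalIntegrable _ _) fun θ _ => ?_
    rw [hh]
    have := sq_le (fderiv ℝ V (t + θ * Complex.I))
    have h5 := sq_nonneg (fderiv ℝ V (t + θ * Complex.I) 1)
    simp only
    linarith
  have hE0 : ∀ t, 0 ≤ E t := fun t => by
    rw [hE]
    refine intervalIntegral.integral_nonneg hpi.le fun θ _ => ?_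
    rw [hh]; positivity
  -- `E` is continuous on `[0, ∞)`
  have hEc : ContinuousOn E (Ici 0) := by
    have e1 : Continuous fun t : ℝ => ∫ θ in (0 : ℝ)..(2 * Real.pi), h ((max t 0 : ℝ) + θ * Complex.I) := by
      refine intervalIntegral.continuous_parametric_intervalIntegral_of_continuous' ?_ _ _
      refine hhc.comp_continuous (f := fun p : ℝ × ℝ => ((max p.1 0 : ℝ) : ℂ) + p.2 * Complex.I) (by fun_prop) fun p => ?_
      show r < (((max p.1 0 : ℝ) : ℂ) + p.2 * Complex.I).re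
      simp [hr]
    refine e1.continuousOn.congr fun t ht => ?_
    rw [hE]
    simp only
    rw [max_eq_left ht]
  -- comparison
  have key : ∀ T : ℝ, 0 < T → g 0 ≤ g T + ∫ t in Ioi (0 : ℝ), E t := by
    intro T hT
    have hEi : IntervalIntegrable E volume 0 T :=
      (hEc.mono (by rw [uIcc_of_le hT.le]; exact fun x hx => hx.1)).intervalIntegrable
    have hge : -(∫ t in (0 : ℝ)..T, E t) ≤ g T - g 0 := by
      rw [← intervalIntegral.integral_neg]
      refine intervalIntegral.integral_le_sub_of_hasDeriv_right_of_le hT.le (fun t ht => ?_) (fun t ht => ?_)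
        (g' := fun t => ∫ θ in (0 : ℝ)..(2 * Real.pi), 2 * (V (t + θ * Complex.I) - m t) *
          fderiv ℝ V (t + θ * Complex.I) 1) ?_ (fun t ht => ?_)
      · exact (hgd t (lt_of_lt_of_le hr ht.1)).continuousAt.continuousWithinAt
      · exact (hgd t (hr.trans ht.1)).hasDerivWithinAt
      · exact ((hEc.mono fun x hx => hx.1).integrableOn_compact isCompact_Icc).neg
      · exact hgE t (hr.trans ht.1)
    have hle : ∫ t in (0 : ℝ)..T, E t ≤ ∫ t in Ioi (0 : ℝ), E t := by
      rw [intervalIntegral.integral_of_le hT.le]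
      exact setIntegral_mono_set hstr.1 (Eventually.of_forall fun t => hE0 t) (Eventually.of_forall fun t ht => ht.1)
    linarith
  have hfin : g 0 ≤ ∫ t in Ioi (0 : ℝ), E t := by
    refine le_of_forall_pos_le_add fun ε hε => ?_
    obtain ⟨T, hT, hTε⟩ := exists_small hstr.1 hε
    have := key T hT
    have h6 := hgT T (hr.trans hT)
    linarith
  rw [← hstr.2, hh] at hfin
  rw [hg, hm] at hfin
  simpa using hfin

end Pool.Agent.H74.SX
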