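import Pool.Agent.H74.SX.Fr

set_option autoImplicit false

/-!
# [H74 SX Wi] the inequality of Wirtinger, by Parseval (helper87)
-/

namespace Pool.Agent.H74.SX

open MeasureTheory Set Filter Topology

namespace WiAux

lemma memLp_of_continuous {g : ℝ → ℂ} (hg : Continuous g) (a b : ℝ) :
    MemLp g 2 (volume.restrict (Ioc a b)) := by
  obtain ⟨C, hC⟩ := isCompact_Icc.exists_bound_of_continuousOn (hg.continuousOn (s := Icc a b))
  refine MemLp.of_bound hg.aestronglyMeasurable C ?_
  exact (ae_restrict_iff' measurableSet_Ioc).2 (Eventually.of_forall fun x hx => hC x (Ioc_subset_Icc_self hx))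

lemma norm_sq_ofReal (x : ℝ) : ‖(x : ℂ)‖ ^ 2 = x ^ 2 := by
  rw [Complex.norm_real, Real.norm_eq_abs, sq_abs]

end WiAux

theorem wi : WiStmt := by
  intro f hf hper
  have hpi : (0 : ℝ) < 2 * Real.pi := by positivity
  set m : ℝ := (∫ y in (0 : ℝ)..(2 * Real.pi), f y) / (2 * Real.pi) with hm
  set F : ℝ → ℂ := fun x => ((f x - m : ℝ) : ℂ) with hF
  set F' : ℝ → ℂ := fun x => ((deriv f x : ℝ) : ℂ) with hF'
  have hfc : Continuous f := hf.continuous
  have hdc : Continuous (deriv f) := hf.continuous_deriv le_rfl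
  have hFc : Continuous F := Complex.continuous_ofReal.comp (hfc.sub continuous_const)
  have hF'c : Continuous F' := Complex.continuous_ofReal.comp hdc
  have hder : ∀ x : ℝ, HasDerivAt F (F' x) x := by
    intro x
    have h1 : HasDerivAt f (deriv f x) x := (hf.differentiable (by norm_num)).differentiableAt.hasDerivAt
    exact (h1.sub_const m).ofReal_comp
  have h1 := hasSum_sq_fourierCoeffOn hpi (WiAux.memLp_of_continuous hFc 0 (2 * Real.pi))
  have h2 := hasSum_sq_fourierCoeffOn hpi (WiAux.memLp_of_continuous hF'c 0 (2 * Real.pi))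
  have h0 : fourierCoeffOn hpi F 0 = 0 := by
    rw [fourierCoeffOn_eq_integral]
    have e : ∫ x in (0 : ℝ)..(2 * Real.pi), fourier (-0) (x : AddCircle (2 * Real.pi - 0)) • F x = 0 := by
      have e1 : ∀ x : ℝ, fourier (-0) (x : AddCircle (2 * Real.pi - 0)) • F x = ((f x - m : ℝ) : ℂ) := by
        intro x
        simp [hF]
      simp_rw [e1]
      rw [intervalIntegral.integral_ofReal, intervalIntegral.integral_sub
        (hfc.intervalIntegrable _ _) (continuous_const.intervalIntegrable _ _),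
        intervalIntegral.integral_const, hm, smul_eq_mul, sub_zero, mul_div_cancel₀ _ hpi.ne', sub_self,
        Complex.ofReal_zero]
    rw [e, smul_zero]
  have hend : F (2 * Real.pi) - F 0 = 0 := by
    have := hper 0
    rw [zero_add] at this
    simp [hF, this]
  have hle : ∀ n : ℤ, ‖fourierCoeffOn hpi F n‖ ^ 2 ≤ ‖fourierCoeffOn hpi F' n‖ ^ 2 := by
    intro n
    rcases eq_or_ne n 0 with rfl | hn
    · rw [h0, norm_zero, zero_pow (by norm_num)]
      positivity
    · have h3 := fourierCoeffOn_of_hasDerivAt hpi hn (fun x _ => hder x) (hF'c.intervalIntegrable 0 (2 * Real.pi))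
      rw [hend, mul_zero, zero_sub] at h3
      have hnR : (1 : ℝ) ≤ |(n : ℝ)| := by
        have : (1 : ℤ) ≤ |n| := Int.one_le_abs hn
        exact_mod_cast this
      have h4 : ‖fourierCoeffOn hpi F n‖ * |(n : ℝ)| = ‖fourierCoeffOn hpi F' n‖ := by
        rw [h3]
        simp only [norm_mul, norm_neg, norm_div, norm_one, Complex.norm_I, Complex.norm_real, mul_one, Complex.norm_ofNat]
        have e1 : ‖((2 * Real.pi : ℝ) : ℂ) - ((0 : ℝ) : ℂ)‖ = 2 * Real.pi := by
          rw [Complex.ofReal_zero, sub_zero, Complex.norm_real, Real.norm_eq_abs, abs_of_pos hpi]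
        have e2 : ‖Real.pi‖ = Real.pi := by rw [Real.norm_eq_abs, abs_of_pos Real.pi_pos]
        have e3 : ‖(n : ℂ)‖ = |(n : ℝ)| := Complex.norm_intCast n
        rw [e1, e2, e3]
        have hn0 : |(n : ℝ)| ≠ 0 := by linarith
        have hp0 : Real.pi ≠ 0 := Real.pi_ne_zero
        field_simp
      have h5 : ‖fourierCoeffOn hpi F n‖ ≤ ‖fourierCoeffOn hpi F' n‖ := by
        rw [← h4]
        exact le_mul_of_one_le_right (norm_nonneg _) hnR
      exact pow_le_pow_left₀ (norm_nonneg _) h5 2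
  have h6 := hasSum_le hle h1 h2
  rw [sub_zero, smul_eq_mul, smul_eq_mul] at h6
  have h7 := le_of_mul_le_mul_left h6 (inv_pos.mpr hpi)
  have e1 : ∀ x : ℝ, ‖F x‖ ^ 2 = (f x - m) ^ 2 := fun x => WiAux.norm_sq_ofReal _
  have e2 : ∀ x : ℝ, ‖F' x‖ ^ 2 = (deriv f x) ^ 2 := fun x => WiAux.norm_sq_ofReal _
  simp_rw [e1, e2] at h7
  exact h7

end Pool.Agent.H74.SX
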