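import Pool.Agent.H74.SX.Fr

set_option autoImplicit false

/-!
# [H74 SX Cfe] the lower bound for the second exterior eigenvalue
-/

namespace Pool.Agent.H74.SX.Cf

open MeasureTheory Set Filter Topology

theorem norm_circ (θ : ℝ) : ‖Complex.exp (θ * Complex.I)‖ = 1 := Complex.norm_exp_ofReal_mul_I θ

theorem cont_circ {ψ : ℂ → ℂ} (hψ : Chart ψ) : Continuous fun θ : ℝ => ψ (Complex.exp (θ * Complex.I)) := by
  obtain ⟨r, hr, hd⟩ := hψ.hol
  have h1 : ContinuousOn ψ {w | r < ‖w‖} := hd.continuousOn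
  have h2 : Continuous fun θ : ℝ => Complex.exp (θ * Complex.I) := by fun_prop
  exact h1.comp_continuous h2 fun θ => by
    show r < ‖Complex.exp (θ * Complex.I)‖
    rw [norm_circ]
    exact hr

theorem cont_deriv {ψ : ℂ → ℂ} (hψ : Chart ψ) :
    Continuous fun θ : ℝ => ‖deriv ψ (Complex.exp (θ * Complex.I))‖ := by
  obtain ⟨r, hr, hd⟩ := hψ.hol
  have hop : IsOpen {w : ℂ | r < ‖w‖} := isOpen_lt continuous_const continuous_norm
  have h1 : ContinuousOn (deriv ψ) {w | r < ‖w‖} := (hd.deriv hop).continuousOn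
  have h2 : Continuous fun θ : ℝ => Complex.exp (θ * Complex.I) := by fun_prop
  refine (h1.comp_continuous h2 fun θ => ?_).norm
  show r < ‖Complex.exp (θ * Complex.I)‖
  rw [norm_circ]
  exact hr

theorem adm_comb {ψ : ℂ → ℂ} {u : Fin 2 → ℂ → ℝ} (hu : ∀ i, ExtAdm ψ (u i)) (c : Fin 2 → ℝ) :
    ExtAdm ψ (fun z => ∑ i, c i * u i z) := by
  have hc : ContDiff ℝ 1 (fun z => ∑ i, c i * u i z) := by
    refine ContDiff.sum fun i _ => ?_
    exact contDiff_const.mul (hu i).1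
  refine ⟨hc, ?_, ?_⟩
  · obtain ⟨C0, h0⟩ := (hu 0).2.1
    obtain ⟨C1, h1⟩ := (hu 1).2.1
    refine ⟨|c 0| * C0 + |c 1| * C1, fun z => ?_⟩
    show |∑ i, c i * u i z| ≤ _
    rw [Fin.sum_univ_two]
    refine (abs_add_le _ _).trans ?_
    rw [abs_mul, abs_mul]
    exact add_le_add (mul_le_mul_of_nonneg_left (h0 z) (abs_nonneg _)) (mul_le_mul_of_nonneg_left (h1 z) (abs_nonneg _))
  · have h1 : ∀ z, fderiv ℝ (fun z => ∑ i, c i * u i z) z = c 0 • fderiv ℝ (u 0) z + c 1 • fderiv ℝ (u 1) z := by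
      intro z
      have d0 : DifferentiableAt ℝ (u 0) z := ((hu 0).1.differentiable one_ne_zero) z
      have d1 : DifferentiableAt ℝ (u 1) z := ((hu 1).1.differentiable one_ne_zero) z
      have h2 : (fun z => ∑ i, c i * u i z) = fun z => c 0 * u 0 z + c 1 * u 1 z := by
        funext z
        rw [Fin.sum_univ_two]
      rw [h2]
      exact ((d0.hasFDerivAt.const_mul (c 0)).add (d1.hasFDerivAt.const_mul (c 1))).fderiv
    have hint : IntegrableOn (fun z => 2 * c 0 ^ 2 * ‖fderiv ℝ (u 0) z‖ ^ 2 + 2 * c 1 ^ 2 * ‖fderiv ℝ (u 1) z‖ ^ 2)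
        (Ext ψ) := ((hu 0).2.2.const_mul (2 * c 0 ^ 2)).add ((hu 1).2.2.const_mul (2 * c 1 ^ 2))
    have hcont : Continuous fun z => ‖fderiv ℝ (fun z => ∑ i, c i * u i z) z‖ ^ 2 :=
      ((hc.continuous_fderiv one_ne_zero).norm).pow 2
    refine Integrable.mono' hint hcont.aestronglyMeasurable (Filter.Eventually.of_forall fun z => ?_)
    rw [Real.norm_of_nonneg (sq_nonneg _), h1]
    have h3 : ‖c 0 • fderiv ℝ (u 0) z + c 1 • fderiv ℝ (u 1) z‖ ≤ |c 0| * ‖fderiv ℝ (u 0) z‖ + |c 1| * ‖fderiv ℝ (u 1) z‖ := by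
      refine (norm_add_le _ _).trans ?_
      rw [norm_smul, norm_smul, Real.norm_eq_abs, Real.norm_eq_abs]
    have h4 : ‖c 0 • fderiv ℝ (u 0) z + c 1 • fderiv ℝ (u 1) z‖ ^ 2 ≤
        (|c 0| * ‖fderiv ℝ (u 0) z‖ + |c 1| * ‖fderiv ℝ (u 1) z‖) ^ 2 := pow_le_pow_left₀ (norm_nonneg _) h3 2
    have h5 : (|c 0| * ‖fderiv ℝ (u 0) z‖ + |c 1| * ‖fderiv ℝ (u 1) z‖) ^ 2 ≤
        2 * (|c 0| * ‖fderiv ℝ (u 0) z‖) ^ 2 + 2 * (|c 1| * ‖fderiv ℝ (u 1) z‖) ^ 2 := by
      nlinarith [sq_nonneg (|c 0| * ‖fderiv ℝ (u 0) z‖ - |c 1| * ‖fderiv ℝ (u 1) z‖)]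
    rw [mul_pow, mul_pow, sq_abs, sq_abs] at h5
    linarith

theorem bd_comb {ψ : ℂ → ℂ} (hψ : Chart ψ) {u : Fin 2 → ℂ → ℝ} (hu : ∀ i, ExtAdm ψ (u i)) (c : Fin 2 → ℝ) :
    bd ψ (fun z => ∑ i, c i * u i z) = c 0 * bd ψ (u 0) + c 1 * bd ψ (u 1) := by
  have hc : ∀ i, Continuous fun θ : ℝ => u i (ψ (Complex.exp (θ * Complex.I))) * ‖deriv ψ (Complex.exp (θ * Complex.I))‖ :=
    fun i => ((hu i).1.continuous.comp (cont_circ hψ)).mul (cont_deriv hψ)
  unfold bd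
  rw [← intervalIntegral.integral_const_mul, ← intervalIntegral.integral_const_mul, ← intervalIntegral.integral_add
    (((hc 0).const_mul (c 0)).intervalIntegrable _ _) (((hc 1).const_mul (c 1)).intervalIntegrable _ _)]
  refine intervalIntegral.integral_congr fun θ _ => ?_
  show (∑ i, c i * u i _) * _ = _
  rw [Fin.sum_univ_two]
  ring

theorem bd_pos {ψ : ℂ → ℂ} (hψ : Chart ψ) {v : ℂ → ℝ} (hv : Continuous v) (w : ℂ) (hw : ‖w‖ = 1) (h0 : v (ψ w) ≠ 0) :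
    0 < bd ψ (fun z => v z ^ 2) := by
  have hpi := Real.pi_pos
  have hcont : Continuous fun θ : ℝ => v (ψ (Complex.exp (θ * Complex.I))) ^ 2 * ‖deriv ψ (Complex.exp (θ * Complex.I))‖ :=
    ((hv.comp (cont_circ hψ)).pow 2).mul (cont_deriv hψ)
  have hnn : ∀ θ : ℝ, 0 ≤ v (ψ (Complex.exp (θ * Complex.I))) ^ 2 * ‖deriv ψ (Complex.exp (θ * Complex.I))‖ :=
    fun θ => mul_nonneg (sq_nonneg _) (norm_nonneg _)
  obtain ⟨θ, hθ, he⟩ : ∃ θ ∈ Icc (0 : ℝ) (2 * Real.pi), Complex.exp (θ * Complex.I) = w := by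
    have h1 : Complex.exp (Complex.arg w * Complex.I) = w := by
      have h2 := Complex.norm_mul_exp_arg_mul_I w
      rwa [hw, Complex.ofReal_one, one_mul] at h2
    have h3 := Complex.neg_pi_lt_arg w
    have h4 := Complex.arg_le_pi w
    by_cases h5 : 0 ≤ Complex.arg w
    · exact ⟨Complex.arg w, ⟨h5, by linarith⟩, h1⟩
    · push Not at h5
      refine ⟨Complex.arg w + 2 * Real.pi, ⟨by linarith, by linarith⟩, ?_⟩
      have h6 : ((Complex.arg w + 2 * Real.pi : ℝ) : ℂ) * Complex.I =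
          Complex.arg w * Complex.I + 2 * Real.pi * Complex.I := by
        push_cast
        ring
      rw [h6, Complex.exp_periodic]
      exact h1
  refine intervalIntegral.integral_pos (by linarith) hcont.continuousOn (fun θ _ => hnn θ) ⟨θ, hθ, ?_⟩
  rw [he]
  exact mul_pos (by positivity) (norm_pos_iff.2 (hψ.nz w hw))

end Pool.Agent.H74.SX.Cf

namespace Pool.Agent.H74.SX

open MeasureTheory Set Filter Topology

theorem cfe (hlow : LowStmt) : CfeStmt := by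
  intro ψ hψ M hM
  refine le_sInf ?_
  rintro x ⟨R, rfl, u, hu, hind, hR⟩
  obtain ⟨c, hc, hb⟩ : ∃ c : Fin 2 → ℝ, c ≠ 0 ∧ bd ψ (fun z => ∑ i, c i * u i z) = 0 := by
    by_cases h0 : bd ψ (u 0) = 0
    · refine ⟨![1, 0], fun h => one_ne_zero (congrFun h 0), ?_⟩
      rw [Cf.bd_comb hψ hu, h0]
      simp
    · refine ⟨![bd ψ (u 1), - bd ψ (u 0)], fun h => h0 ?_, ?_⟩
      · have h1 := congrFun h 1
        simpa using h1
      · rw [Cf.bd_comb hψ hu]
        simp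
        ring
  obtain ⟨w, hw, hne⟩ : ∃ w : ℂ, ‖w‖ = 1 ∧ ∑ i, c i * u i (ψ w) ≠ 0 := by
    by_contra hcon
    push Not at hcon
    exact hc (hind c hcon)
  have hadm := Cf.adm_comb hu c
  have hpos := Cf.bd_pos hψ hadm.1.continuous w hw hne
  have h1 := hlow ψ hψ M hM _ hadm hb
  have h2 := hR c
  have hM0 : 0 < M := (norm_pos_iff.2 (hψ.nz 1 norm_one)).trans_le (hM 1 norm_one)
  have hd : 0 < dir (Ext ψ) (fun z => ∑ i, c i * u i z) := by
    by_contra hcon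
    push Not at hcon
    have h3 : M * dir (Ext ψ) (fun z => ∑ i, c i * u i z) ≤ 0 := mul_nonpos_of_nonneg_of_nonpos hM0.le hcon
    linarith
  have hR0 : 0 < R := by
    by_contra hcon
    push Not at hcon
    have h3 : R * bd ψ (fun z => (∑ i, c i * u i z) ^ 2) ≤ 0 := mul_nonpos_of_nonpos_of_nonneg hcon hpos.le
    linarith
  have h4 : dir (Ext ψ) (fun z => ∑ i, c i * u i z) ≤ R * (M * dir (Ext ψ) (fun z => ∑ i, c i * u i z)) :=
    h2.trans (mul_le_mul_of_nonneg_left h1 hR0.le)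
  have h5 : 1 ≤ R * M := by
    by_contra hcon
    push Not at hcon
    nlinarith
  rw [EReal.coe_le_coe_iff, div_le_iff₀ hM0]
  exact h5

end Pool.Agent.H74.SX
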