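import Pool.Agent.H74.SX.Fr

set_option autoImplicit false

/-!
# [H74 SX Low] the lower bound for one function
-/

namespace Pool.Agent.H74.SX.Lw

open MeasureTheory Set Filter Topology

theorem isOpen_out (r : ℝ) : IsOpen {w : ℂ | r < ‖w‖} := isOpen_lt continuous_const continuous_norm

theorem norm_circ (θ : ℝ) : ‖Complex.exp (θ * Complex.I)‖ = 1 := Complex.norm_exp_ofReal_mul_I θ

theorem cont_circ {ψ : ℂ → ℂ} (hψ : Chart ψ) : Continuous fun θ : ℝ => ψ (Complex.exp (θ * Complex.I)) := by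
  obtain ⟨r, hr, hd⟩ := hψ.hol
  have h1 : ContinuousOn ψ {w | r < ‖w‖} := hd.continuousOn
  have h2 : Continuous fun θ : ℝ => Complex.exp (θ * Complex.I) := by fun_prop
  exact h1.comp_continuous h2 fun θ => by
    show r < ‖Complex.exp (θ * Complex.I)‖
    rw [norm_circ]
    exact hr

theorem cont_deriv {ψ : ℂ → ℂ} (hψ : Chart ψ) :
    Continuous fun θ : ℝ => ‖deriv ψ (Complex.exp (θ * Complex.I))‖ := by
  obtain ⟨r, hr, hd⟩ := hψ.hol
  have h1 : ContinuousOn (deriv ψ) {w | r < ‖w‖} := (hd.deriv (isOpen_out r)).continuousOn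
  have h2 : Continuous fun θ : ℝ => Complex.exp (θ * Complex.I) := by fun_prop
  refine (h1.comp_continuous h2 fun θ => ?_).norm
  show r < ‖Complex.exp (θ * Complex.I)‖
  rw [norm_circ]
  exact hr

theorem calc1 (U h : ℝ → ℝ) (hU : Continuous U) (hh : Continuous h) (h0 : ∀ x, 0 ≤ h x) (M : ℝ) (hM : ∀ x, h x ≤ M)
    (hz : ∫ x in (0 : ℝ)..(2 * Real.pi), U x * h x = 0) (m : ℝ) :
    ∫ x in (0 : ℝ)..(2 * Real.pi), U x ^ 2 * h x ≤ M * ∫ x in (0 : ℝ)..(2 * Real.pi), (U x - m) ^ 2 := by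
  have hpi : (0 : ℝ) ≤ 2 * Real.pi := by positivity
  have h1 : ∫ x in (0 : ℝ)..(2 * Real.pi), U x ^ 2 * h x =
      (∫ x in (0 : ℝ)..(2 * Real.pi), (U x - m) ^ 2 * h x) - m ^ 2 * ∫ x in (0 : ℝ)..(2 * Real.pi), h x := by
    have h2 : ∀ x, U x ^ 2 * h x = ((U x - m) ^ 2 * h x + 2 * m * (U x * h x)) - m ^ 2 * h x := fun x => by ring
    have i1 : IntervalIntegrable (fun x => (U x - m) ^ 2 * h x) volume 0 (2 * Real.pi) :=
      (by fun_prop : Continuous fun x => (U x - m) ^ 2 * h x).intervalIntegrable _ _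
    have i2 : IntervalIntegrable (fun x => 2 * m * (U x * h x)) volume 0 (2 * Real.pi) :=
      (by fun_prop : Continuous fun x => 2 * m * (U x * h x)).intervalIntegrable _ _
    have i3 : IntervalIntegrable (fun x => m ^ 2 * h x) volume 0 (2 * Real.pi) :=
      (by fun_prop : Continuous fun x => m ^ 2 * h x).intervalIntegrable _ _
    rw [intervalIntegral.integral_congr (g := fun x => ((U x - m) ^ 2 * h x + 2 * m * (U x * h x)) - m ^ 2 * h x)
      (fun x _ => h2 x), intervalIntegral.integral_sub (i1.add i2) i3, intervalIntegral.integral_add i1 i2,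
      intervalIntegral.integral_const_mul, intervalIntegral.integral_const_mul, hz]
    ring
  have h3 : 0 ≤ ∫ x in (0 : ℝ)..(2 * Real.pi), h x := intervalIntegral.integral_nonneg hpi fun x _ => h0 x
  have h4 : ∫ x in (0 : ℝ)..(2 * Real.pi), (U x - m) ^ 2 * h x ≤ ∫ x in (0 : ℝ)..(2 * Real.pi), M * (U x - m) ^ 2 := by
    refine intervalIntegral.integral_mono_on hpi ?_ ?_ fun x _ => ?_
    · exact (by fun_prop : Continuous fun x => (U x - m) ^ 2 * h x).intervalIntegrable _ _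
    · exact (by fun_prop : Continuous fun x => M * (U x - m) ^ 2).intervalIntegrable _ _
    · rw [mul_comm M]
      exact mul_le_mul_of_nonneg_left (hM x) (sq_nonneg _)
  rw [intervalIntegral.integral_const_mul] at h4
  have h5 : 0 ≤ m ^ 2 * ∫ x in (0 : ℝ)..(2 * Real.pi), h x := mul_nonneg (sq_nonneg _) h3
  linarith

end Pool.Agent.H74.SX.Lw

namespace Pool.Agent.H74.SX

open MeasureTheory Set Filter Topology

theorem low (hcv : CvStmt) (hst : StStmt) : LowStmt := by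
  intro ψ hψ M hM u hu hz
  obtain ⟨hu1, -, hu3⟩ := hu
  obtain ⟨h1, h2⟩ := hcv ψ hψ u hu1 hu3
  obtain ⟨r, hr, hd⟩ := hψ.hol
  have hr1 : max r (1 / 2) < 1 := max_lt hr (by norm_num)
  have hr0 : 0 < max r (1 / 2) := lt_max_of_lt_right (by norm_num)
  have hlog : Real.log (max r (1 / 2)) < 0 := Real.log_neg hr0 hr1
  have hV : ContDiffOn ℝ 1 (fun ζ => u (ψ (Complex.exp ζ))) {ζ | Real.log (max r (1 / 2)) < ζ.re} := by
    have hmaps : MapsTo Complex.exp {ζ : ℂ | Real.log (max r (1 / 2)) < ζ.re} {w | r < ‖w‖} := by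
      intro ζ hζ
      show r < ‖Complex.exp ζ‖
      rw [Complex.norm_exp]
      have h3 : max r (1 / 2) < Real.exp ζ.re := (Real.log_lt_iff_lt_exp hr0).1 hζ
      exact (le_max_left _ _).trans_lt h3
    have hop : IsOpen {ζ : ℂ | Real.log (max r (1 / 2)) < ζ.re} := isOpen_lt continuous_const Complex.continuous_re
    have h4 : DifferentiableOn ℂ (fun ζ => ψ (Complex.exp ζ)) {ζ : ℂ | Real.log (max r (1 / 2)) < ζ.re} :=
      hd.comp Complex.differentiable_exp.differentiableOn hmaps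
    have h5 : ContDiffOn ℂ 1 (fun ζ => ψ (Complex.exp ζ)) {ζ : ℂ | Real.log (max r (1 / 2)) < ζ.re} :=
      h4.contDiffOn hop
    have h6 : ContDiffOn ℝ 1 (fun ζ => ψ (Complex.exp ζ)) {ζ : ℂ | Real.log (max r (1 / 2)) < ζ.re} :=
      h5.restrict_scalars ℝ
    exact hu1.comp_contDiffOn h6
  have hper : ∀ ζ : ℂ, u (ψ (Complex.exp (ζ + 2 * Real.pi * Complex.I))) = u (ψ (Complex.exp ζ)) := by
    intro ζ
    rw [Complex.exp_periodic ζ]
  have h3 := hst _ (fun ζ => u (ψ (Complex.exp ζ))) hlog hV hper h1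
  have hM0 : 0 ≤ M := (norm_nonneg _).trans (hM 1 norm_one)
  have h4 := Lw.calc1 (fun θ : ℝ => u (ψ (Complex.exp (θ * Complex.I))))
    (fun θ : ℝ => ‖deriv ψ (Complex.exp (θ * Complex.I))‖) (hu1.continuous.comp (Lw.cont_circ hψ)) (Lw.cont_deriv hψ)
    (fun _ => norm_nonneg _) M (fun θ => hM _ (Lw.norm_circ θ)) hz
    ((∫ y in (0 : ℝ)..(2 * Real.pi), u (ψ (Complex.exp (y * Complex.I)))) / (2 * Real.pi))
  exact h4.trans (mul_le_mul_of_nonneg_left (h3.trans h2) hM0)

end Pool.Agent.H74.SX
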