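import Pool.Agent.H74.SX.Fr

set_option autoImplicit false

/-!
# [H74 SX Cv] conformal invariance of the Dirichlet integral (helper28)
-/

namespace Pool.Agent.H74.SX

open MeasureTheory Set Filter Topology

namespace Cv

theorem norm_comp (L : ℂ →L[ℝ] ℝ) (c : ℂ) :
    ‖L.comp (c • (1 : ℂ →L[ℝ] ℂ))‖ = ‖L‖ * ‖c‖ := by
  have key : ∀ (L : ℂ →L[ℝ] ℝ) (c : ℂ), ‖L.comp (c • (1 : ℂ →L[ℝ] ℂ))‖ ≤ ‖L‖ * ‖c‖ := by
    intro L c
    refine (ContinuousLinearMap.opNorm_comp_le _ _).trans ?_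
    refine mul_le_mul_of_nonneg_left ?_ (norm_nonneg _)
    refine ContinuousLinearMap.opNorm_le_bound _ (norm_nonneg _) fun x => ?_
    simp
  refine le_antisymm (key L c) ?_
  by_cases hc : c = 0
  · subst hc
    simp
  · have h1 : (L.comp (c • (1 : ℂ →L[ℝ] ℂ))).comp (c⁻¹ • (1 : ℂ →L[ℝ] ℂ)) = L := by
      ext x
      simp [hc]
    have h2 := key (L.comp (c • (1 : ℂ →L[ℝ] ℂ))) c⁻¹
    rw [h1, norm_inv] at h2
    have h3 : 0 < ‖c‖ := norm_pos_iff.2 hc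
    calc ‖L‖ * ‖c‖ ≤ (‖L.comp (c • (1 : ℂ →L[ℝ] ℂ))‖ * ‖c‖⁻¹) * ‖c‖ :=
          mul_le_mul_of_nonneg_right h2 h3.le
      _ = ‖L.comp (c • (1 : ℂ →L[ℝ] ℂ))‖ := by
          rw [mul_assoc, inv_mul_cancel₀ h3.ne', mul_one]

theorem det_smul_one (c : ℂ) : (c • (1 : ℂ →L[ℝ] ℂ)).det = ‖c‖ ^ 2 := by
  have h : ((c • (1 : ℂ →L[ℝ] ℂ) : ℂ →L[ℝ] ℂ) : ℂ →ₗ[ℝ] ℂ) = Algebra.lmul ℝ ℂ c := by
    ext x
    simp
  rw [ContinuousLinearMap.det, h, ← Algebra.norm_apply, Algebra.norm_complex_apply,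
    Complex.normSq_eq_norm_sq]

theorem str_open : IsOpen Str := by
  have h1 : IsOpen {ζ : ℂ | 0 < ζ.re} := isOpen_lt continuous_const Complex.continuous_re
  have h2 : IsOpen {ζ : ℂ | 0 < ζ.im} := isOpen_lt continuous_const Complex.continuous_im
  have h3 : IsOpen {ζ : ℂ | ζ.im < 2 * Real.pi} := isOpen_lt Complex.continuous_im continuous_const
  exact (h1.inter (h2.inter h3))

theorem exp_norm (ζ : ℂ) (h : ζ ∈ Str) : 1 < ‖Complex.exp ζ‖ := by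
  rw [Complex.norm_exp]
  exact Real.one_lt_exp_iff.2 h.1

theorem exp_inj : InjOn Complex.exp Str := by
  intro ζ h ζ' h' he
  rw [Complex.exp_eq_exp_iff_exists_int] at he
  obtain ⟨n, hn⟩ := he
  have him : ζ.im = ζ'.im + n * (2 * Real.pi) := by
    rw [hn]
    simp
  have h1 := h.2.1
  have h2 := h.2.2
  have h3 := h'.2.1
  have h4 := h'.2.2
  have hpi := Real.pi_pos
  have hn0 : n = 0 := by
    have h5 : (n : ℝ) < 1 := by
      by_contra hcon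
      push Not at hcon
      nlinarith
    have h6 : (-1 : ℝ) < n := by
      by_contra hcon
      push Not at hcon
      nlinarith
    have h7 : n < 1 := by exact_mod_cast h5
    have h8 : -1 < n := by exact_mod_cast h6
    omega
  rw [hn, hn0]
  simp

end Cv

theorem cv : CvStmt := by
  intro ψ hψ u hu hint
  obtain ⟨r, hr, hol⟩ := hψ.hol
  have hopen : IsOpen {w : ℂ | r < ‖w‖} := isOpen_lt continuous_const continuous_norm
  set G : ℂ → ℂ := fun ζ => ψ (Complex.exp ζ) with hG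
  let c : ℂ → ℂ := fun ζ => deriv ψ (Complex.exp ζ) * Complex.exp ζ
  have hd : ∀ ζ ∈ Str, HasFDerivAt G (c ζ • (1 : ℂ →L[ℝ] ℂ)) ζ := by
    intro ζ hζ
    have h1 := Cv.exp_norm ζ hζ
    have h2 : DifferentiableAt ℂ ψ (Complex.exp ζ) :=
      (hol _ (show r < ‖Complex.exp ζ‖ by linarith)).differentiableAt
        (hopen.mem_nhds (show r < ‖Complex.exp ζ‖ by linarith))
    have h3 : HasDerivAt G (c ζ) ζ := h2.hasDerivAt.comp ζ (Complex.hasDerivAt_exp ζ)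
    exact h3.complexToReal_fderiv
  have hinj : InjOn G Str := by
    intro ζ h ζ' h' he
    exact Cv.exp_inj h h' (hψ.inj (Cv.exp_norm ζ h).le (Cv.exp_norm ζ' h').le he)
  have himg : G '' Str ⊆ Ext ψ := by
    rintro _ ⟨ζ, hζ, rfl⟩
    exact ⟨_, Cv.exp_norm ζ hζ, rfl⟩
  have hms : MeasurableSet Str := Cv.str_open.measurableSet
  have hV : ∀ ζ ∈ Str, ‖fderiv ℝ (fun ζ => u (G ζ)) ζ‖ ^ 2 =
      |(c ζ • (1 : ℂ →L[ℝ] ℂ)).det| • ‖fderiv ℝ u (G ζ)‖ ^ 2 := by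
    intro ζ hζ
    have h1 : HasFDerivAt (fun ζ => u (G ζ))
        ((fderiv ℝ u (G ζ)).comp (c ζ • (1 : ℂ →L[ℝ] ℂ))) ζ :=
      ((hu.differentiable one_ne_zero).differentiableAt.hasFDerivAt).comp ζ (hd ζ hζ)
    rw [h1.fderiv, Cv.norm_comp, Cv.det_smul_one, abs_of_nonneg (sq_nonneg _), smul_eq_mul]
    ring
  have hint' : IntegrableOn (fun z => ‖fderiv ℝ u z‖ ^ 2) (G '' Str) := hint.mono_set himg
  have hG1 := (integrableOn_image_iff_integrableOn_abs_det_fderiv_smul volume hms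
    (fun ζ hζ => (hd ζ hζ).hasFDerivWithinAt) hinj (fun z => ‖fderiv ℝ u z‖ ^ 2)).1 hint'
  have hG2 := integral_image_eq_integral_abs_det_fderiv_smul volume hms
    (fun ζ hζ => (hd ζ hζ).hasFDerivWithinAt) hinj (fun z => ‖fderiv ℝ u z‖ ^ 2)
  refine ⟨?_, ?_⟩
  · exact hG1.congr_fun (fun ζ hζ => (hV ζ hζ).symm) hms
  · rw [setIntegral_congr_fun hms (fun ζ hζ => hV ζ hζ), ← hG2]
    exact setIntegral_mono_set hint (Eventually.of_forall fun z => sq_nonneg _)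
      (LE.le.eventuallyLE himg)

end Pool.Agent.H74.SX
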