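import Pool.Agent.H74.SX.Fr

set_option autoImplicit false

/-!
# [H74 SX Asm] assembly from the statements (helper74)
-/

namespace Pool.Agent.H74.SX

open MeasureTheory Set Filter Topology

theorem M_pos {ψ : ℂ → ℂ} (h : Chart ψ) {M : ℝ} (hM : ∀ w : ℂ, ‖w‖ = 1 → ‖deriv ψ w‖ ≤ M) : 0 < M :=
  lt_of_lt_of_le (norm_pos_iff.2 (h.nz 1 (by simp))) (hM 1 (by simp))

theorem crit (hcfi : CfiStmt) {ψ : ℂ → ℂ} (h : Chart ψ) {M : ℝ}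
    (hM : ∀ w : ℂ, ‖w‖ = 1 → ‖deriv ψ w‖ ≤ M)
    (hD : M * volume.real (Inn ψ) < bd ψ (fun z => (z.re - bd ψ (fun z => z.re) / bd ψ (fun _ => 1)) ^ 2)) :
    minmax ψ (Inn ψ) (fun u => ContDiff ℝ 1 u) 2 < ((1 / M : ℝ) : EReal) := by
  have hMp := M_pos h hM
  have hv : 0 ≤ volume.real (Inn ψ) := measureReal_nonneg
  obtain ⟨D, hDd⟩ : ∃ D, D = bd ψ (fun z => (z.re - bd ψ (fun z => z.re) / bd ψ (fun _ => 1)) ^ 2) := ⟨_, rfl⟩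
  rw [← hDd] at hD
  have hD0 : 0 < D := lt_of_le_of_lt (mul_nonneg hMp.le hv) hD
  refine lt_of_le_of_lt (hcfi ψ h D hD0 hDd) ?_
  rw [EReal.coe_lt_coe_iff, div_lt_div_iff₀ hD0 hMp]
  linarith

theorem ell_main (hcfi : CfiStmt) (hcfe : CfeStmt) (hels : ElsStmt) (helv : ElvStmt) (helc : ElcStmt) (helb : ElbStmt)
    {a b : ℝ} (hb : 0 < b) (hab : b < a) :
    Chart (ell a b) ∧ Inn (ell a b) = {z : ℂ | (z.re / a) ^ 2 + (z.im / b) ^ 2 < 1} ∧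
      Ext (ell a b) = {z : ℂ | 1 < (z.re / a) ^ 2 + (z.im / b) ^ 2} ∧
      minmax (ell a b) (Inn (ell a b)) (fun u => ContDiff ℝ 1 u) 2 < ((1 / a : ℝ) : EReal) ∧
      ((1 / a : ℝ) : EReal) ≤ minmax (ell a b) (Ext (ell a b)) (ExtAdm (ell a b)) 2 := by
  obtain ⟨hc, hM⟩ := helc a b hb hab
  obtain ⟨hi, he⟩ := hels a b hb hab
  obtain ⟨hb1, hb2⟩ := helb a b hb hab
  refine ⟨hc, hi, he, crit hcfi hc hM ?_, hcfe _ hc a hM⟩
  rw [hb1, zero_div, hi, helv a b (hb.trans hab) hb]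
  simp only [sub_zero]
  calc a * (Real.pi * a * b) = Real.pi * a ^ 2 * b := by ring
    _ < _ := hb2

end Pool.Agent.H74.SX
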