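import Pool.Agent.H74.SX.Fr

set_option autoImplicit false

/-!
# [H74 SX Cfi] the upper bound for the second interior eigenvalue
-/

namespace Pool.Agent.H74.SX

open MeasureTheory Set Filter Topology

namespace CfiAux

theorem cont_e : Continuous (fun θ : ℝ => Complex.exp (θ * Complex.I)) := by fun_prop

theorem cont_psi {ψ : ℂ → ℂ} (h : Chart ψ) :
    Continuous (fun θ : ℝ => ψ (Complex.exp (θ * Complex.I))) := by
  obtain ⟨r, hr, hd⟩ := h.hol
  refine hd.continuousOn.comp_continuous cont_e fun θ => ?_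
  change r < ‖Complex.exp (θ * Complex.I)‖
  rw [Complex.norm_exp_ofReal_mul_I]
  exact hr

theorem cont_der {ψ : ℂ → ℂ} (h : Chart ψ) :
    Continuous (fun θ : ℝ => ‖deriv ψ (Complex.exp (θ * Complex.I))‖) := by
  obtain ⟨r, hr, hd⟩ := h.hol
  have ho : IsOpen {w : ℂ | r < ‖w‖} := isOpen_lt continuous_const continuous_norm
  refine ((hd.deriv ho).continuousOn.comp_continuous cont_e fun θ => ?_).norm
  change r < ‖Complex.exp (θ * Complex.I)‖
  rw [Complex.norm_exp_ofReal_mul_I]
  exact hr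

theorem bd_quad {ψ : ℂ → ℂ} (h : Chart ψ) (a b c : ℝ) :
    bd ψ (fun z => a * z.re ^ 2 + b * z.re + c) =
      a * bd ψ (fun z => z.re ^ 2) + b * bd ψ (fun z => z.re) + c * bd ψ (fun _ => 1) := by
  have h1 := cont_psi h
  have h2 := cont_der h
  have h3 : Continuous (fun θ : ℝ => (ψ (Complex.exp (θ * Complex.I))).re) :=
    Complex.continuous_re.comp h1
  have i1 : IntervalIntegrable (fun θ : ℝ => a * ((ψ (Complex.exp (θ * Complex.I))).re ^ 2 *
      ‖deriv ψ (Complex.exp (θ * Complex.I))‖)) volume 0 (2 * Real.pi) :=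
    (continuous_const.mul ((h3.pow 2).mul h2)).intervalIntegrable _ _
  have i2 : IntervalIntegrable (fun θ : ℝ => b * ((ψ (Complex.exp (θ * Complex.I))).re *
      ‖deriv ψ (Complex.exp (θ * Complex.I))‖)) volume 0 (2 * Real.pi) :=
    (continuous_const.mul (h3.mul h2)).intervalIntegrable _ _
  have i3 : IntervalIntegrable (fun θ : ℝ => c * (1 *
      ‖deriv ψ (Complex.exp (θ * Complex.I))‖)) volume 0 (2 * Real.pi) :=
    (continuous_const.mul (continuous_const.mul h2)).intervalIntegrable _ _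
  unfold bd
  rw [← intervalIntegral.integral_const_mul, ← intervalIntegral.integral_const_mul,
    ← intervalIntegral.integral_const_mul, ← intervalIntegral.integral_add i1 i2,
    ← intervalIntegral.integral_add (i1.add i2) i3]
  refine intervalIntegral.integral_congr fun θ _ => ?_
  change (a * (ψ (Complex.exp (θ * Complex.I))).re ^ 2 + b * (ψ (Complex.exp (θ * Complex.I))).re + c) *
    ‖deriv ψ (Complex.exp (θ * Complex.I))‖ = _
  ring

theorem bd_one_pos {ψ : ℂ → ℂ} (h : Chart ψ) : 0 < bd ψ (fun _ => 1) := by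
  unfold bd
  refine intervalIntegral.intervalIntegral_pos_of_pos
    ((continuous_const.mul (cont_der h)).intervalIntegrable _ _) (fun θ => ?_) Real.two_pi_pos
  rw [one_mul, norm_pos_iff]
  exact h.nz _ (Complex.norm_exp_ofReal_mul_I θ)

theorem dir_lin (S : Set ℂ) (a b : ℝ) : dir S (fun z => a + b * z.re) = volume.real S * b ^ 2 := by
  have h1 : ∀ z : ℂ, ‖fderiv ℝ (fun z : ℂ => a + b * z.re) z‖ ^ 2 = b ^ 2 := by
    intro z
    have h2 : HasFDerivAt (fun z : ℂ => a + b * z.re) (b • Complex.reCLM) z := by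
      have h3 : HasFDerivAt (fun z : ℂ => b * Complex.reCLM z) (b • Complex.reCLM) z :=
        Complex.reCLM.hasFDerivAt.const_mul b
      exact h3.const_add a
    rw [h2.fderiv, norm_smul, Complex.reCLM_norm, mul_one, Real.norm_eq_abs, sq_abs]
  unfold dir
  simp only [h1]
  rw [setIntegral_const, smul_eq_mul]

end CfiAux

open CfiAux in
theorem cfi : CfiStmt := by
  intro ψ hψ D hD0 hD
  obtain ⟨A, hA⟩ : ∃ A, A = bd ψ (fun z => z.re ^ 2) := ⟨_, rfl⟩
  obtain ⟨B, hB⟩ : ∃ B, B = bd ψ (fun z => z.re) := ⟨_, rfl⟩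
  obtain ⟨C, hC⟩ : ∃ C, C = bd ψ (fun _ => 1) := ⟨_, rfl⟩
  have hC0 : 0 < C := by
    rw [hC]
    exact bd_one_pos hψ
  rw [← hB, ← hC] at hD
  obtain ⟨m, hm⟩ : ∃ m, m = B / C := ⟨_, rfl⟩
  rw [← hm] at hD
  have hmC : m * C = B := by
    rw [hm, div_mul_cancel₀ _ hC0.ne']
  have hquad : ∀ a b c : ℝ, bd ψ (fun z => a * z.re ^ 2 + b * z.re + c) = a * A + b * B + c * C := by
    intro a b c
    rw [bd_quad hψ, ← hA, ← hB, ← hC]
  have hD' : D = A - m * B := by
    have h1 : (fun z : ℂ => (z.re - m) ^ 2) = fun z => 1 * z.re ^ 2 + (-2 * m) * z.re + m ^ 2 := by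
      funext z
      ring
    rw [hD, h1, hquad, ← hmC]
    ring
  refine sInf_le ⟨volume.real (Inn ψ) / D, rfl, ![fun _ => 1, fun z => z.re], ?_, ?_, ?_⟩
  · intro i
    fin_cases i
    · exact contDiff_const
    · exact Complex.reCLM.contDiff
  · intro c hc
    have hc1 : c 1 = 0 := by
      by_contra hne
      have h1 : ∀ w : ℂ, ‖w‖ = 1 → (ψ w).re = -(c 0) / c 1 := by
        intro w hw
        have h2 := hc w hw
        rw [Fin.sum_univ_two] at h2
        have h3 : c 0 * 1 + c 1 * (ψ w).re = 0 := h2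
        rw [eq_div_iff hne]
        linarith
      obtain ⟨t, ht⟩ : ∃ t, t = -(c 0) / c 1 := ⟨_, rfl⟩
      rw [← ht] at h1
      have h4 : B = t * C := by
        rw [hB, hC]
        unfold bd
        rw [← intervalIntegral.integral_const_mul]
        refine intervalIntegral.integral_congr fun θ _ => ?_
        change (ψ (Complex.exp (θ * Complex.I))).re * _ = t * (1 * _)
        rw [h1 _ (Complex.norm_exp_ofReal_mul_I θ), one_mul]
      have h5 : A = t ^ 2 * C := by
        rw [hA, hC]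
        unfold bd
        rw [← intervalIntegral.integral_const_mul]
        refine intervalIntegral.integral_congr fun θ _ => ?_
        change (ψ (Complex.exp (θ * Complex.I))).re ^ 2 * _ = t ^ 2 * (1 * _)
        rw [h1 _ (Complex.norm_exp_ofReal_mul_I θ), one_mul]
      have h6 : m = t := by
        rw [hm, h4, mul_div_cancel_right₀ _ hC0.ne']
      have h7 : D = 0 := by
        rw [hD', h4, h5, h6]
        ring
      exact hD0.ne' h7
    have hc0 : c 0 = 0 := by
      have h2 := hc 1 norm_one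
      rw [Fin.sum_univ_two, hc1, zero_mul, add_zero] at h2
      have h3 : c 0 * 1 = 0 := h2
      rwa [mul_one] at h3
    funext i
    fin_cases i
    · exact hc0
    · exact hc1
  · intro c
    have h1 : (fun z : ℂ => ∑ i, c i * (![fun _ => 1, fun z => z.re] : Fin 2 → ℂ → ℝ) i z) =
        fun z => c 0 + c 1 * z.re := by
      funext z
      rw [Fin.sum_univ_two]
      change c 0 * 1 + c 1 * z.re = _
      rw [mul_one]
    have h2 : (fun z : ℂ => (∑ i, c i * (![fun _ => 1, fun z => z.re] : Fin 2 → ℂ → ℝ) i z) ^ 2) =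
        fun z => c 1 ^ 2 * z.re ^ 2 + 2 * c 0 * c 1 * z.re + c 0 ^ 2 := by
      funext z
      rw [Fin.sum_univ_two]
      change (c 0 * 1 + c 1 * z.re) ^ 2 = _
      ring
    rw [h1, h2, hquad, dir_lin]
    have h3 : c 1 ^ 2 * A + 2 * c 0 * c 1 * B + c 0 ^ 2 * C = c 1 ^ 2 * D + (c 0 + c 1 * m) ^ 2 * C := by
      rw [hD', ← hmC]
      ring
    rw [h3]
    have h4 : volume.real (Inn ψ) / D * (c 1 ^ 2 * D) = volume.real (Inn ψ) * c 1 ^ 2 := by
      field_simp
    have h5 : 0 ≤ volume.real (Inn ψ) / D * ((c 0 + c 1 * m) ^ 2 * C) :=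
      mul_nonneg (div_nonneg measureReal_nonneg hD0.le) (mul_nonneg (sq_nonneg _) hC0.le)
    rw [mul_add, h4]
    linarith

end Pool.Agent.H74.SX
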