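import Mathlib

set_option autoImplicit false

/-!
# [H74 SX Defs] MP_bddfa3_an, interior and exterior Steklov eigenvalues (helper74)

`Ω` is the complement of `ψ {|w| ≥ 1}`, its boundary is the curve `ψ (e^{iθ})`. The eigenvalues are given by the min-max principle. Plan:
lower bound `1 / max |ψ'| ≤ σ_2(Ω^ext)` by conformal invariance (`V ζ = u (ψ (exp ζ))` on the half strip) and Wirtinger; upper bound
`σ_2(Ω) ≤ |Ω| / ∫ (x - mean)² ds`; ellipses.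
-/

namespace Pool.Agent.H74.SX

open MeasureTheory Set Filter Topology

/-- the Dirichlet integral of `u` over `S` -/
noncomputable def dir (S : Set ℂ) (u : ℂ → ℝ) : ℝ := ∫ z in S, ‖fderiv ℝ u z‖ ^ 2

/-- the integral of `f` over the curve `ψ (e^{iθ})` with respect to arc length -/
noncomputable def bd (ψ : ℂ → ℂ) (f : ℂ → ℝ) : ℝ :=
  ∫ θ in (0 : ℝ)..(2 * Real.pi), f (ψ (Complex.exp (θ * Complex.I))) * ‖deriv ψ (Complex.exp (θ * Complex.I))‖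

/-- the exterior domain -/
def Ext (ψ : ℂ → ℂ) : Set ℂ := ψ '' {w | 1 < ‖w‖}

/-- the domain -/
def Inn (ψ : ℂ → ℂ) : Set ℂ := (ψ '' {w | 1 ≤ ‖w‖})ᶜ

/-- `ψ` is holomorphic on a neighbourhood of `{|w| ≥ 1}`, injective there, with nonzero derivative on the circle and a simple pole at infinity -/
structure Chart (ψ : ℂ → ℂ) : Prop where
  hol : ∃ r : ℝ, r < 1 ∧ DifferentiableOn ℂ ψ {w | r < ‖w‖}
  inj : InjOn ψ {w | 1 ≤ ‖w‖}
  nz : ∀ w, ‖w‖ = 1 → deriv ψ w ≠ 0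
  inf : ∃ c : ℂ, c ≠ 0 ∧ Tendsto (fun w => ψ w / w) (cocompact ℂ) (𝓝 c)

/-- test functions for the exterior: bounded, of class `C¹`, with finite Dirichlet integral -/
def ExtAdm (ψ : ℂ → ℂ) (u : ℂ → ℝ) : Prop :=
  ContDiff ℝ 1 u ∧ (∃ C : ℝ, ∀ z, |u z| ≤ C) ∧ IntegrableOn (fun z => ‖fderiv ℝ u z‖ ^ 2) (Ext ψ)

/-- the `k`-th min-max value of the quotient of the Dirichlet integral over `S` and the integral of the square over the boundary -/
noncomputable def minmax (ψ : ℂ → ℂ) (S : Set ℂ) (Adm : (ℂ → ℝ) → Prop) (k : ℕ) : EReal :=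
  sInf {x : EReal | ∃ R : ℝ, x = R ∧ ∃ u : Fin k → ℂ → ℝ, (∀ i, Adm (u i)) ∧
    (∀ c : Fin k → ℝ, (∀ w : ℂ, ‖w‖ = 1 → ∑ i, c i * u i (ψ w) = 0) → c = 0) ∧
    ∀ c : Fin k → ℝ, dir S (fun z => ∑ i, c i * u i z) ≤ R * bd ψ (fun z => (∑ i, c i * u i z) ^ 2)}

/-- the half strip `Re ζ > 0`, `0 < Im ζ < 2π` -/
def Str : Set ℂ := {ζ | 0 < ζ.re ∧ 0 < ζ.im ∧ ζ.im < 2 * Real.pi}

/-- the conformal map for the ellipse with half axes `a` and `b` -/
noncomputable def ell (a b : ℝ) (w : ℂ) : ℂ := ((a + b : ℝ) / 2 : ℂ) * w + ((a - b : ℝ) / 2 : ℂ) * w⁻¹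

end Pool.Agent.H74.SX
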