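import Pool.Agent.H74.SX.Fr

set_option autoImplicit false

/-!
# [H74 SX Elb] the boundary integrals for the ellipse (helper13)

`re (ell a b e^{iθ}) = a cos θ`, `‖deriv (ell a b) e^{iθ}‖ = sqrt (a² sin² θ + b² cos² θ)`.
-/

namespace Pool.Agent.H74.SX

open MeasureTheory Set Filter Topology

namespace ElbH

theorem re_ell (a b θ : ℝ) : (ell a b (Complex.exp (θ * Complex.I))).re = a * Real.cos θ := by
  unfold ell
  rw [← Complex.exp_neg, Complex.add_re, Complex.mul_re, Complex.mul_re]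
  have h1 : -((θ : ℂ) * Complex.I) = ((-θ : ℝ) : ℂ) * Complex.I := by push_cast; ring
  rw [h1, Complex.exp_ofReal_mul_I_re, Complex.exp_ofReal_mul_I_im, Complex.exp_ofReal_mul_I_re,
    Complex.exp_ofReal_mul_I_im, Real.cos_neg, Real.sin_neg]
  have h2 : (((a + b : ℝ) : ℂ) / 2).re = (a + b) / 2 := by
    have : (((a + b : ℝ) : ℂ) / 2) = (((a + b) / 2 : ℝ) : ℂ) := by push_cast; ring
    rw [this, Complex.ofReal_re]
  have h3 : (((a + b : ℝ) : ℂ) / 2).im = 0 := by
    have : (((a + b : ℝ) : ℂ) / 2) = (((a + b) / 2 : ℝ) : ℂ) := by push_cast; ring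
    rw [this, Complex.ofReal_im]
  have h4 : (((a - b : ℝ) : ℂ) / 2).re = (a - b) / 2 := by
    have : (((a - b : ℝ) : ℂ) / 2) = (((a - b) / 2 : ℝ) : ℂ) := by push_cast; ring
    rw [this, Complex.ofReal_re]
  have h5 : (((a - b : ℝ) : ℂ) / 2).im = 0 := by
    have : (((a - b : ℝ) : ℂ) / 2) = (((a - b) / 2 : ℝ) : ℂ) := by push_cast; ring
    rw [this, Complex.ofReal_im]
  rw [h2, h3, h4, h5]
  ring

theorem deriv_ell (a b : ℝ) {w : ℂ} (hw : w ≠ 0) :
    deriv (ell a b) w = ((a + b : ℝ) / 2 : ℂ) - ((a - b : ℝ) / 2 : ℂ) * (w ^ 2)⁻¹ := by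
  have h : HasDerivAt (ell a b) (((a + b : ℝ) / 2 : ℂ) * 1 + ((a - b : ℝ) / 2 : ℂ) * (-(w ^ 2)⁻¹)) w :=
    ((hasDerivAt_id w).const_mul _).add ((hasDerivAt_inv hw).const_mul _)
  rw [h.deriv]
  ring

theorem norm_deriv_sq (a b θ : ℝ) :
    ‖deriv (ell a b) (Complex.exp (θ * Complex.I))‖ ^ 2 = a ^ 2 * Real.sin θ ^ 2 + b ^ 2 * Real.cos θ ^ 2 := by
  rw [deriv_ell a b (Complex.exp_ne_zero _), ← Complex.exp_nat_mul, ← Complex.exp_neg]
  have h1 : -(((2 : ℕ) : ℂ) * ((θ : ℂ) * Complex.I)) = ((-(2 * θ) : ℝ) : ℂ) * Complex.I := by push_cast; ring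
  have h2 : ((a + b : ℝ) / 2 : ℂ) - ((a - b : ℝ) / 2 : ℂ) * Complex.exp (((-(2 * θ) : ℝ) : ℂ) * Complex.I) =
      ((((a + b) / 2 - (a - b) / 2 * Real.cos (2 * θ) : ℝ)) : ℂ) +
        ((((a - b) / 2 * Real.sin (2 * θ) : ℝ)) : ℂ) * Complex.I := by
    rw [Complex.exp_mul_I, ← Complex.ofReal_cos, ← Complex.ofReal_sin, Real.cos_neg, Real.sin_neg]
    push_cast
    ring
  rw [h1, h2, ← Complex.normSq_eq_norm_sq, Complex.normSq_add_mul_I, Real.cos_two_mul, Real.sin_two_mul]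
  have h3 := Real.sin_sq_add_cos_sq θ
  have h4 : Real.sin θ ^ 2 = 1 - Real.cos θ ^ 2 := by linarith
  have h5 : (2 * Real.sin θ * Real.cos θ) ^ 2 = 4 * Real.sin θ ^ 2 * Real.cos θ ^ 2 := by ring
  rw [mul_pow ((a - b) / 2), h5, h4]
  ring

theorem norm_deriv (a b θ : ℝ) :
    ‖deriv (ell a b) (Complex.exp (θ * Complex.I))‖ =
      Real.sqrt (a ^ 2 * Real.sin θ ^ 2 + b ^ 2 * Real.cos θ ^ 2) := by
  rw [← norm_deriv_sq, Real.sqrt_sq (norm_nonneg _)]

end ElbH

theorem elb : ElbStmt := by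
  intro a b hb hab
  have ha : 0 < a := hb.trans hab
  obtain ⟨v, hv⟩ : ∃ v : ℝ → ℝ, v = fun θ => Real.sqrt (a ^ 2 * Real.sin θ ^ 2 + b ^ 2 * Real.cos θ ^ 2) :=
    ⟨_, rfl⟩
  have hvc : Continuous v := by
    rw [hv]
    fun_prop
  have hvb : ∀ θ, b ≤ v θ := by
    intro θ
    rw [hv]
    apply Real.le_sqrt_of_sq_le
    have h3 := Real.sin_sq_add_cos_sq θ
    have h4 : b ^ 2 ≤ a ^ 2 := by nlinarith
    nlinarith [sq_nonneg (Real.sin θ)]
  have hvp : ∀ θ, v (θ + Real.pi) = v θ := by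
    intro θ
    rw [hv]
    simp only [Real.sin_add_pi, Real.cos_add_pi, neg_sq]
  have hv4 : b < v (Real.pi / 4) := by
    rw [hv]
    simp only [Real.sin_pi_div_four, Real.cos_pi_div_four]
    apply Real.lt_sqrt_of_sq_lt
    have h5 : (Real.sqrt 2 / 2) ^ 2 = 1 / 2 := by
      rw [div_pow, Real.sq_sqrt (by norm_num)]
      norm_num
    rw [h5]
    nlinarith
  unfold bd
  constructor
  · have h1 : ∀ θ : ℝ, (ell a b (Complex.exp (θ * Complex.I))).re *
        ‖deriv (ell a b) (Complex.exp (θ * Complex.I))‖ = a * Real.cos θ * v θ := by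
      intro θ
      rw [ElbH.re_ell, ElbH.norm_deriv, hv]
    simp only [h1]
    have hc : Continuous fun θ : ℝ => a * Real.cos θ * v θ := by fun_prop
    have h2 : ∫ θ in (0 : ℝ)..(2 * Real.pi), a * Real.cos θ * v θ =
        (∫ θ in (0 : ℝ)..Real.pi, a * Real.cos θ * v θ) +
          ∫ θ in Real.pi..(2 * Real.pi), a * Real.cos θ * v θ :=
      (intervalIntegral.integral_add_adjacent_intervals (hc.intervalIntegrable _ _)
        (hc.intervalIntegrable _ _)).symm
    have h3 : ∫ θ in Real.pi..(2 * Real.pi), a * Real.cos θ * v θ =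
        ∫ θ in (0 : ℝ)..Real.pi, a * Real.cos (θ + Real.pi) * v (θ + Real.pi) := by
      have h4 := intervalIntegral.integral_comp_add_right (a := 0) (b := Real.pi)
        (fun θ => a * Real.cos θ * v θ) Real.pi
      rw [h4]
      congr 1 <;> ring
    have h5 : ∀ θ : ℝ, a * Real.cos (θ + Real.pi) * v (θ + Real.pi) = -(a * Real.cos θ * v θ) := by
      intro θ
      rw [hvp, Real.cos_add_pi]
      ring
    rw [h2, h3]
    simp only [h5]
    rw [intervalIntegral.integral_neg]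
    ring
  · have h1 : ∀ θ : ℝ, (ell a b (Complex.exp (θ * Complex.I))).re ^ 2 *
        ‖deriv (ell a b) (Complex.exp (θ * Complex.I))‖ = a ^ 2 * Real.cos θ ^ 2 * v θ := by
      intro θ
      rw [ElbH.re_ell, ElbH.norm_deriv, hv]
      ring
    simp only [h1]
    have h2 : Real.pi * a ^ 2 * b = ∫ θ in (0 : ℝ)..(2 * Real.pi), a ^ 2 * b * Real.cos θ ^ 2 := by
      rw [intervalIntegral.integral_const_mul, integral_cos_sq]
      simp
      ring
    rw [h2]
    apply intervalIntegral.integral_lt_integral_of_continuousOn_of_le_of_exists_lt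
    · exact Real.two_pi_pos
    · exact (by fun_prop : Continuous fun θ : ℝ => a ^ 2 * b * Real.cos θ ^ 2).continuousOn
    · exact (by fun_prop : Continuous fun θ : ℝ => a ^ 2 * Real.cos θ ^ 2 * v θ).continuousOn
    · intro θ _
      have h3 : 0 ≤ a ^ 2 * Real.cos θ ^ 2 := by positivity
      have h4 := mul_le_mul_of_nonneg_left (hvb θ) h3
      linarith
    · refine ⟨Real.pi / 4, ⟨by positivity, by linarith [Real.pi_pos]⟩, ?_⟩
      have h3 : 0 < a ^ 2 * Real.cos (Real.pi / 4) ^ 2 := by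
        rw [Real.cos_pi_div_four]
        positivity
      have h4 := mul_lt_mul_of_pos_left hv4 h3
      linarith

end Pool.Agent.H74.SX
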