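import Pool.Agent.H74.SX.Fr

set_option autoImplicit false

/-!
# [H74 SX Elc] the chart of the ellipse
-/

namespace Pool.Agent.H74.SX

open MeasureTheory Set Filter Topology

namespace ElcM

theorem hasDeriv (a b : ℝ) {w : ℂ} (hw : w ≠ 0) :
    HasDerivAt (ell a b) (((a + b : ℝ) / 2 : ℂ) - ((a - b : ℝ) / 2 : ℂ) * (w ^ 2)⁻¹) w := by
  have h1 : HasDerivAt (fun w : ℂ => ((a + b : ℝ) / 2 : ℂ) * w) (((a + b : ℝ) / 2 : ℂ) * 1) w :=
    (hasDerivAt_id w).const_mul _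
  have h2 : HasDerivAt (fun w : ℂ => ((a - b : ℝ) / 2 : ℂ) * w⁻¹)
      (((a - b : ℝ) / 2 : ℂ) * (-(w ^ 2)⁻¹)) w := (hasDerivAt_inv hw).const_mul _
  have h3 : HasDerivAt (ell a b)
      (((a + b : ℝ) / 2 : ℂ) * 1 + ((a - b : ℝ) / 2 : ℂ) * (-(w ^ 2)⁻¹)) w := h1.add h2
  refine h3.congr_deriv ?_
  ring

theorem norm_al {a b : ℝ} (h : 0 < a + b) : ‖((a + b : ℝ) / 2 : ℂ)‖ = (a + b) / 2 := by
  rw [norm_div, Complex.norm_real, Real.norm_of_nonneg h.le]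
  norm_num

theorem norm_be {a b : ℝ} (h : 0 < a - b) : ‖((a - b : ℝ) / 2 : ℂ)‖ = (a - b) / 2 := by
  rw [norm_div, Complex.norm_real, Real.norm_of_nonneg h.le]
  norm_num

end ElcM

theorem elc : ElcStmt := by
  intro a b hb hab
  have hp : 0 < a + b := by linarith
  have hm : 0 < a - b := by linarith
  have hA := ElcM.norm_al hp
  have hB := ElcM.norm_be hm
  have hne : ∀ w : ℂ, ‖w‖ = 1 → w ≠ 0 := by
    intro w hw h0
    rw [h0, norm_zero] at hw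
    exact zero_ne_one hw
  have hnorm : ∀ w : ℂ, ‖w‖ = 1 → ‖((a - b : ℝ) / 2 : ℂ) * (w ^ 2)⁻¹‖ = (a - b) / 2 := by
    intro w hw
    rw [norm_mul, hB, norm_inv, norm_pow, hw, one_pow, inv_one, mul_one]
  have hderiv : ∀ w : ℂ, ‖w‖ = 1 →
      deriv (ell a b) w = ((a + b : ℝ) / 2 : ℂ) - ((a - b : ℝ) / 2 : ℂ) * (w ^ 2)⁻¹ := fun w hw =>
    (ElcM.hasDeriv a b (hne w hw)).deriv
  refine ⟨⟨⟨0, one_pos, ?_⟩, ?_, ?_, ?_⟩, ?_⟩
  · intro w hw
    have hw0 : w ≠ 0 := norm_pos_iff.1 hw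
    exact (ElcM.hasDeriv a b hw0).differentiableAt.differentiableWithinAt
  · intro w hw w' hw' h
    by_contra hne'
    have h1 : (1 : ℝ) ≤ ‖w‖ := hw
    have h2 : (1 : ℝ) ≤ ‖w'‖ := hw'
    have hw0 : w ≠ 0 := norm_pos_iff.1 (by linarith)
    have hw0' : w' ≠ 0 := norm_pos_iff.1 (by linarith)
    have h3 : ((a + b : ℝ) / 2 : ℂ) * w + ((a - b : ℝ) / 2 : ℂ) * w⁻¹ =
        ((a + b : ℝ) / 2 : ℂ) * w' + ((a - b : ℝ) / 2 : ℂ) * w'⁻¹ := h
    have h4 : (w - w') * (((a + b : ℝ) / 2 : ℂ) * (w * w') - ((a - b : ℝ) / 2 : ℂ)) = 0 := by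
      have e1 : w * w⁻¹ = 1 := mul_inv_cancel₀ hw0
      have e2 : w' * w'⁻¹ = 1 := mul_inv_cancel₀ hw0'
      linear_combination (w * w') * h3 - ((a - b : ℝ) / 2 : ℂ) * w' * e1 +
        ((a - b : ℝ) / 2 : ℂ) * w * e2
    have h5 : ((a + b : ℝ) / 2 : ℂ) * (w * w') = ((a - b : ℝ) / 2 : ℂ) := by
      rcases mul_eq_zero.1 h4 with h6 | h6
      · exact absurd (sub_eq_zero.1 h6) hne'
      · exact sub_eq_zero.1 h6
    have h7 := congrArg (fun z : ℂ => ‖z‖) h5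
    simp only [norm_mul] at h7
    rw [hA, hB] at h7
    have h8 : 1 ≤ ‖w‖ * ‖w'‖ := one_le_mul_of_one_le_of_one_le h1 h2
    nlinarith
  · intro w hw h0
    rw [hderiv w hw] at h0
    have h1 := congrArg (fun z : ℂ => ‖z‖) (sub_eq_zero.1 h0)
    rw [hA, hnorm w hw] at h1
    linarith
  · refine ⟨((a + b : ℝ) / 2 : ℂ), ?_, ?_⟩
    · intro h0
      rw [h0, norm_zero] at hA
      linarith
    · have h1 : Tendsto (fun w : ℂ => w⁻¹) (cocompact ℂ) (𝓝 0) := by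
        rw [← Metric.cobounded_eq_cocompact]
        exact tendsto_inv₀_cobounded
      have h2 : Tendsto (fun w : ℂ => ((a + b : ℝ) / 2 : ℂ) + ((a - b : ℝ) / 2 : ℂ) * (w⁻¹ * w⁻¹))
          (cocompact ℂ) (𝓝 (((a + b : ℝ) / 2 : ℂ) + ((a - b : ℝ) / 2 : ℂ) * (0 * 0))) :=
        (((h1.mul h1).const_mul _).const_add _)
      rw [mul_zero, mul_zero, add_zero] at h2
      refine h2.congr' ?_
      have h3 : ∀ᶠ w : ℂ in cocompact ℂ, w ≠ 0 := by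
        have h4 : ({0} : Set ℂ)ᶜ ∈ cocompact ℂ := isCompact_singleton.compl_mem_cocompact
        exact h4
      filter_upwards [h3] with w hw
      show _ = (((a + b : ℝ) / 2 : ℂ) * w + ((a - b : ℝ) / 2 : ℂ) * w⁻¹) / w
      field_simp
  · intro w hw
    rw [hderiv w hw]
    refine (norm_sub_le _ _).trans ?_
    rw [hA, hnorm w hw]
    linarith

end Pool.Agent.H74.SX
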