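import Pool.Agent.H74.SX.Fr

set_option autoImplicit false

/-!
# [H74 SX Els] the ellipse (helper94)
-/

namespace Pool.Agent.H74.SX

open MeasureTheory Set Filter Topology

namespace Els

theorem key0 {a b x y N : ℝ} (ha : a ≠ 0) (hb : b ≠ 0) (hN : N ≠ 0) (h : N = x ^ 2 + y ^ 2) :
    (((a + b) / 2 * x + (a - b) / 2 * (x / N)) / a) ^ 2 + (((a + b) / 2 * y - (a - b) / 2 * (y / N)) / b) ^ 2 - 1 =
      (N - 1) * (((a + b) / 2) ^ 2 * N - ((a - b) / 2) ^ 2) / N ^ 2 * (x ^ 2 / a ^ 2 + y ^ 2 / b ^ 2) := by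
  field_simp
  linear_combination (-4 * N * a ^ 2 * b ^ 2) * h

theorem key {a b : ℝ} (hb : 0 < b) (hab : b < a) {w : ℂ} (hw : w ≠ 0) :
    ((ell a b w).re / a) ^ 2 + ((ell a b w).im / b) ^ 2 - 1 =
      (Complex.normSq w - 1) * (((a + b) / 2) ^ 2 * Complex.normSq w - ((a - b) / 2) ^ 2) / Complex.normSq w ^ 2 *
        (w.re ^ 2 / a ^ 2 + w.im ^ 2 / b ^ 2) := by
  have ha : 0 < a := hb.trans hab
  have hN : Complex.normSq w ≠ 0 := by simpa using hw
  have h1 : ((a + b : ℝ) / 2 : ℂ) = (((a + b) / 2 : ℝ) : ℂ) := by push_cast; ring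
  have h2 : ((a - b : ℝ) / 2 : ℂ) = (((a - b) / 2 : ℝ) : ℂ) := by push_cast; ring
  have hre : (ell a b w).re = (a + b) / 2 * w.re + (a - b) / 2 * (w.re / Complex.normSq w) := by
    unfold ell
    rw [h1, h2, Complex.add_re, Complex.re_ofReal_mul, Complex.re_ofReal_mul, Complex.inv_re]
  have him : (ell a b w).im = (a + b) / 2 * w.im - (a - b) / 2 * (w.im / Complex.normSq w) := by
    unfold ell
    rw [h1, h2, Complex.add_im, Complex.im_ofReal_mul, Complex.im_ofReal_mul, Complex.inv_im]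
    ring
  rw [hre, him]
  exact key0 ha.ne' hb.ne' hN (by rw [Complex.normSq_apply]; ring)

theorem pos_fac {a b : ℝ} (hb : 0 < b) (hab : b < a) {w : ℂ} (hw : w ≠ 0) :
    0 < w.re ^ 2 / a ^ 2 + w.im ^ 2 / b ^ 2 := by
  have ha : 0 < a := hb.trans hab
  rcases eq_or_ne w.re 0 with h | h
  · have h' : w.im ≠ 0 := fun h' => hw (Complex.ext h h')
    have : 0 < w.im ^ 2 / b ^ 2 := by positivity
    have : 0 ≤ w.re ^ 2 / a ^ 2 := by positivity
    linarith
  · have : 0 < w.re ^ 2 / a ^ 2 := by positivity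
    have : 0 ≤ w.im ^ 2 / b ^ 2 := by positivity
    linarith

/-- the existence of a preimage of large modulus -/
theorem pre {a b : ℝ} (hb : 0 < b) (hab : b < a) (z : ℂ) :
    ∃ w : ℂ, w ≠ 0 ∧ ell a b w = z ∧ (a - b) / 2 ≤ (a + b) / 2 * Complex.normSq w := by
  have ha : 0 < a := hb.trans hab
  set p : ℝ := (a + b) / 2 with hp
  set q : ℝ := (a - b) / 2 with hq
  have hp0 : 0 < p := by rw [hp]; linarith
  have hq0 : 0 < q := by rw [hq]; linarith
  have hpc : (p : ℂ) ≠ 0 := by exact_mod_cast hp0.ne'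
  have hqc : (q : ℂ) ≠ 0 := by exact_mod_cast hq0.ne'
  obtain ⟨s, hs⟩ := IsAlgClosed.exists_pow_nat_eq (z ^ 2 - 4 * p * q) (n := 2) (by norm_num)
  have hell : ∀ w : ℂ, w ≠ 0 → p * w ^ 2 - z * w + q = 0 → ell a b w = z := by
    intro w hw h
    have h1 : ((a + b : ℝ) / 2 : ℂ) = (p : ℂ) := by rw [hp]; push_cast; ring
    have h2 : ((a - b : ℝ) / 2 : ℂ) = (q : ℂ) := by rw [hq]; push_cast; ring
    unfold ell
    rw [h1, h2]
    field_simp
    linear_combination h
  have hroot : ∀ t : ℂ, t ^ 2 = z ^ 2 - 4 * p * q →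
      (p : ℂ) * ((z + t) / (2 * p)) ^ 2 - z * ((z + t) / (2 * p)) + q = 0 := by
    intro t ht
    field_simp
    linear_combination ht
  have hprod : ((z + s) / (2 * p)) * ((z + -s) / (2 * p)) = q / p := by
    field_simp
    linear_combination -hs
  have hne1 : (z + s) / (2 * p) ≠ 0 := by
    intro h
    rw [h, zero_mul] at hprod
    exact (div_ne_zero hqc hpc) hprod.symm
  have hne2 : (z + -s) / (2 * p) ≠ 0 := by
    intro h
    rw [h, mul_zero] at hprod
    exact (div_ne_zero hqc hpc) hprod.symm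
  have hn : Complex.normSq ((z + s) / (2 * p)) * Complex.normSq ((z + -s) / (2 * p)) = (q / p) ^ 2 := by
    rw [← Complex.normSq_mul, hprod]
    rw [← Complex.ofReal_div, Complex.normSq_ofReal]
    ring
  have hqp : 0 < q / p := by positivity
  rcases le_or_gt (q / p) (Complex.normSq ((z + s) / (2 * p))) with h | h
  · refine ⟨_, hne1, hell _ hne1 (hroot s hs), ?_⟩
    rwa [div_le_iff₀' hp0] at h
  · refine ⟨_, hne2, hell _ hne2 (hroot (-s) (by rw [neg_sq]; exact hs)), ?_⟩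
    have h2 : q / p ≤ Complex.normSq ((z + -s) / (2 * p)) := by
      by_contra hcon
      have hcon := not_le.mp hcon
      have h3 := mul_lt_mul'' h hcon (Complex.normSq_nonneg _) (Complex.normSq_nonneg _)
      rw [hn] at h3
      nlinarith
    rwa [div_le_iff₀' hp0] at h2

theorem sgn {a b : ℝ} (hb : 0 < b) (hab : b < a) {w : ℂ} (hw : w ≠ 0)
    (h : (a - b) / 2 ≤ (a + b) / 2 * Complex.normSq w) :
    ∃ c : ℝ, 0 < c ∧ ((ell a b w).re / a) ^ 2 + ((ell a b w).im / b) ^ 2 - 1 = (Complex.normSq w - 1) * c := by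
  have ha : 0 < a := hb.trans hab
  have hN : 0 < Complex.normSq w := Complex.normSq_pos.mpr hw
  refine ⟨(((a + b) / 2) ^ 2 * Complex.normSq w - ((a - b) / 2) ^ 2) / Complex.normSq w ^ 2 *
        (w.re ^ 2 / a ^ 2 + w.im ^ 2 / b ^ 2), ?_, ?_⟩
  · apply mul_pos
    · apply div_pos
      · have h1 : (a + b) / 2 * ((a - b) / 2) ≤ (a + b) / 2 * ((a + b) / 2 * Complex.normSq w) :=
          mul_le_mul_of_nonneg_left h (by linarith)
        nlinarith
      · positivity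
    · exact pos_fac hb hab hw
  · rw [key hb hab hw]
    ring

theorem one_le_iff (w : ℂ) : 1 ≤ ‖w‖ ↔ 0 ≤ Complex.normSq w - 1 := by
  rw [Complex.normSq_eq_norm_sq]
  constructor
  · intro h
    nlinarith [norm_nonneg w]
  · intro h
    by_contra hc
    have hc := not_le.mp hc
    nlinarith [norm_nonneg w]

theorem one_lt_iff (w : ℂ) : 1 < ‖w‖ ↔ 0 < Complex.normSq w - 1 := by
  rw [Complex.normSq_eq_norm_sq]
  constructor
  · intro h
    nlinarith [norm_nonneg w]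
  · intro h
    by_contra hc
    have hc := not_lt.mp hc
    nlinarith [norm_nonneg w]

theorem cond {a b : ℝ} (hb : 0 < b) (hab : b < a) {w : ℂ} (h : 1 ≤ ‖w‖) :
    w ≠ 0 ∧ (a - b) / 2 ≤ (a + b) / 2 * Complex.normSq w := by
  have h1 := (one_le_iff w).mp h
  refine ⟨?_, by nlinarith⟩
  rintro rfl
  rw [norm_zero] at h
  linarith

theorem mem_le {a b : ℝ} (hb : 0 < b) (hab : b < a) (z : ℂ) :
    z ∈ ell a b '' {w | 1 ≤ ‖w‖} ↔ 1 ≤ (z.re / a) ^ 2 + (z.im / b) ^ 2 := by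
  constructor
  · rintro ⟨w, hw, rfl⟩
    obtain ⟨h0, h1⟩ := cond hb hab hw
    obtain ⟨c, hc, e⟩ := sgn hb hab h0 h1
    have h2 := mul_nonneg ((one_le_iff w).mp hw) hc.le
    rw [← e] at h2
    linarith
  · intro h
    obtain ⟨w, h0, rfl, h1⟩ := pre hb hab z
    obtain ⟨c, hc, e⟩ := sgn hb hab h0 h1
    refine ⟨w, (one_le_iff w).mpr ?_, rfl⟩
    have h2 : 0 ≤ (Complex.normSq w - 1) * c := by rw [← e]; linarith
    exact nonneg_of_mul_nonneg_left h2 hc

theorem mem_lt {a b : ℝ} (hb : 0 < b) (hab : b < a) (z : ℂ) :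
    z ∈ ell a b '' {w | 1 < ‖w‖} ↔ 1 < (z.re / a) ^ 2 + (z.im / b) ^ 2 := by
  constructor
  · rintro ⟨w, hw, rfl⟩
    have hw : 1 < ‖w‖ := hw
    obtain ⟨h0, h1⟩ := cond hb hab hw.le
    obtain ⟨c, hc, e⟩ := sgn hb hab h0 h1
    have h2 := mul_pos ((one_lt_iff w).mp hw) hc
    rw [← e] at h2
    linarith
  · intro h
    obtain ⟨w, h0, rfl, h1⟩ := pre hb hab z
    obtain ⟨c, hc, e⟩ := sgn hb hab h0 h1
    refine ⟨w, (one_lt_iff w).mpr ?_, rfl⟩
    have h2 : 0 < (Complex.normSq w - 1) * c := by rw [← e]; linarith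
    exact pos_of_mul_pos_left h2 hc.le

end Els

theorem els : ElsStmt := by
  intro a b hb hab
  constructor
  · ext z
    rw [Inn, Set.mem_compl_iff, Els.mem_le hb hab]
    exact not_le
  · ext z
    exact Els.mem_lt hb hab z

end Pool.Agent.H74.SX
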