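import Pool.Agent.H74.SX.Fr

set_option autoImplicit false

/-!
# [H74 SX Elv] the area of the ellipse (helper13)

The ellipse is the preimage of the unit disk under the linear map `z ↦ re z / a + i im z / b`.
-/

namespace Pool.Agent.H74.SX

open MeasureTheory Set Filter Topology

namespace ElvH

/-- the linear map -/
noncomputable def lm (a b : ℝ) : ℂ →ₗ[ℝ] ℂ where
  toFun z := ⟨z.re / a, z.im / b⟩
  map_add' z w := by
    apply Complex.ext
    · simp [add_div]
    · simp [add_div]
  map_smul' c z := by
    apply Complex.ext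
    · simp [mul_div_assoc]
    · simp [mul_div_assoc]

theorem det_lm (a b : ℝ) : LinearMap.det (lm a b) = 1 / a * (1 / b) := by
  rw [← LinearMap.det_toMatrix Complex.basisOneI, Matrix.det_fin_two]
  simp [LinearMap.toMatrix_apply, lm]

end ElvH

theorem elv : ElvStmt := by
  intro a b ha hb
  have h1 : {z : ℂ | (z.re / a) ^ 2 + (z.im / b) ^ 2 < 1} = ElvH.lm a b ⁻¹' Metric.ball 0 1 := by
    ext z
    rw [Set.mem_preimage, Metric.mem_ball, dist_zero_right, Set.mem_ofPred_eq]
    have h2 : ‖ElvH.lm a b z‖ ^ 2 = (z.re / a) ^ 2 + (z.im / b) ^ 2 := by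
      rw [← Complex.normSq_eq_norm_sq, Complex.normSq_apply]
      show z.re / a * (z.re / a) + z.im / b * (z.im / b) = _
      ring
    rw [← h2]
    constructor
    · intro h
      have := norm_nonneg (ElvH.lm a b z)
      nlinarith
    · intro h
      have := norm_nonneg (ElvH.lm a b z)
      nlinarith
  have hdet : LinearMap.det (ElvH.lm a b) ≠ 0 := by
    rw [ElvH.det_lm]
    positivity
  unfold Measure.real
  rw [h1, Measure.addHaar_preimage_linearMap _ hdet, Complex.volume_ball, ElvH.det_lm,
    ENNReal.toReal_mul, ENNReal.toReal_ofReal (abs_nonneg _)]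
  have h3 : |(1 / a * (1 / b))⁻¹| = a * b := by
    rw [abs_of_pos (by positivity)]
    field_simp
  rw [h3]
  simp
  ring

end Pool.Agent.H74.SX
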