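import Pool.Agent.H74.SX.Asm
import Pool.Agent.H74.SX.Cv
import Pool.Agent.H74.SX.Wi
import Pool.Agent.H74.SX.St
import Pool.Agent.H74.SX.Low
import Pool.Agent.H74.SX.Cfe
import Pool.Agent.H74.SX.Cfi
import Pool.Agent.H74.SX.Els
import Pool.Agent.H74.SX.Elc
import Pool.Agent.H74.SX.Elv
import Pool.Agent.H74.SX.Elb

set_option autoImplicit false

/-!
# [H74 SX Fin] the three facts of the hand-in (helper74)
-/

namespace Pool.Agent.H74.SX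

open MeasureTheory Set Filter Topology

theorem lower {ψ : ℂ → ℂ} (h : Chart ψ) {M : ℝ} (hM : ∀ w : ℂ, ‖w‖ = 1 → ‖deriv ψ w‖ ≤ M) :
    ((1 / M : ℝ) : EReal) ≤ minmax ψ (Ext ψ) (ExtAdm ψ) 2 :=
  cfe (low cv (st wi)) ψ h M hM

theorem upper {ψ : ℂ → ℂ} (h : Chart ψ) {M : ℝ} (hM : ∀ w : ℂ, ‖w‖ = 1 → ‖deriv ψ w‖ ≤ M)
    (hD : M * volume.real (Inn ψ) < bd ψ (fun z => (z.re - bd ψ (fun z => z.re) / bd ψ (fun _ => 1)) ^ 2)) :
    minmax ψ (Inn ψ) (fun u => ContDiff ℝ 1 u) 2 < ((1 / M : ℝ) : EReal) :=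
  crit cfi h hM hD

theorem ellipse {a b : ℝ} (hb : 0 < b) (hab : b < a) :
    Chart (ell a b) ∧ Inn (ell a b) = {z : ℂ | (z.re / a) ^ 2 + (z.im / b) ^ 2 < 1} ∧
      Ext (ell a b) = {z : ℂ | 1 < (z.re / a) ^ 2 + (z.im / b) ^ 2} ∧
      minmax (ell a b) (Inn (ell a b)) (fun u => ContDiff ℝ 1 u) 2 < ((1 / a : ℝ) : EReal) ∧
      ((1 / a : ℝ) : EReal) ≤ minmax (ell a b) (Ext (ell a b)) (ExtAdm (ell a b)) 2 :=
  ell_main cfi (cfe (low cv (st wi))) els elv elc elb hb hab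

end Pool.Agent.H74.SX
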