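import Pool.Agent.H74.SX.Defs

set_option autoImplicit false

/-!
# [H74 SX Fr] statements of the modules (helper74)
-/

namespace Pool.Agent.H74.SX

open MeasureTheory Set Filter Topology

/-- `Cv`: conformal invariance. Proof: `G = ψ ∘ exp` is holomorphic on `Re ζ > 0` (and more), injective on `Str`, `G '' Str ⊆ Ext ψ`;
`integral_image_eq_integral_abs_det_fderiv_smul` (the determinant of the real derivative is `‖deriv G ζ‖ ^ 2`) and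
`‖fderiv ℝ (u ∘ G) ζ‖ = ‖fderiv ℝ u (G ζ)‖ * ‖deriv G ζ‖` (multiplication by a complex number is a multiple of an isometry). -/
def CvStmt : Prop := ∀ (ψ : ℂ → ℂ), Chart ψ → ∀ u : ℂ → ℝ, ContDiff ℝ 1 u →
  IntegrableOn (fun z => ‖fderiv ℝ u z‖ ^ 2) (Ext ψ) →
  IntegrableOn (fun ζ => ‖fderiv ℝ (fun ζ => u (ψ (Complex.exp ζ))) ζ‖ ^ 2) Str ∧
    ∫ ζ in Str, ‖fderiv ℝ (fun ζ => u (ψ (Complex.exp ζ))) ζ‖ ^ 2 ≤ dir (Ext ψ) u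

/-- `Wi`: the inequality of Wirtinger. Proof: Parseval for `f` and `f'` (`fourierCoeffOn_of_hasDerivAt`, `hasSum_sq_fourierCoeff...`). -/
def WiStmt : Prop := ∀ f : ℝ → ℝ, ContDiff ℝ 1 f → Function.Periodic f (2 * Real.pi) →
  ∫ x in (0 : ℝ)..(2 * Real.pi), (f x - (∫ y in (0 : ℝ)..(2 * Real.pi), f y) / (2 * Real.pi)) ^ 2 ≤
    ∫ x in (0 : ℝ)..(2 * Real.pi), (deriv f x) ^ 2

/-- `St`: the trace inequality for the half strip (uses `Wi`). Proof: `g t = ∫ (V (t + iθ) - m t)² dθ`, `m t` the mean;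
`g' t = 2 ∫ (V - m) V_t dθ ≥ - ∫ ((V - m)² + V_t²) dθ ≥ - ∫ (V_θ² + V_t²) dθ` by `Wi`, and `‖fderiv ℝ V ζ‖² = V_t² + V_θ²`; so
`g 0 - g T` is at most the Dirichlet integral, and `g` is integrable on `(0, ∞)` by `Wi`, so `g T` is small for some large `T`. -/
def StStmt : Prop := ∀ (r : ℝ) (V : ℂ → ℝ), r < 0 → ContDiffOn ℝ 1 V {ζ | r < ζ.re} →
  (∀ ζ, V (ζ + 2 * Real.pi * Complex.I) = V ζ) → IntegrableOn (fun ζ => ‖fderiv ℝ V ζ‖ ^ 2) Str →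
  ∫ θ in (0 : ℝ)..(2 * Real.pi), (V (θ * Complex.I) -
    (∫ y in (0 : ℝ)..(2 * Real.pi), V (y * Complex.I)) / (2 * Real.pi)) ^ 2 ≤ ∫ ζ in Str, ‖fderiv ℝ V ζ‖ ^ 2

/-- `Low` (uses `Cv`, `St`) -/
def LowStmt : Prop := ∀ (ψ : ℂ → ℂ), Chart ψ → ∀ M : ℝ, (∀ w : ℂ, ‖w‖ = 1 → ‖deriv ψ w‖ ≤ M) →
  ∀ u : ℂ → ℝ, ExtAdm ψ u → bd ψ u = 0 → bd ψ (fun z => u z ^ 2) ≤ M * dir (Ext ψ) u

/-- `Cfe` (uses `Low`): `w = c₀ u₀ + c₁ u₁` with `bd ψ w = 0`, `c ≠ 0`; `bd ψ (w²) > 0` by independence, continuity and `nz`; so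
`dir w ≤ R bd (w²) ≤ R M dir w` and `dir w > 0`. -/
def CfeStmt : Prop := ∀ (ψ : ℂ → ℂ), Chart ψ → ∀ M : ℝ, (∀ w : ℂ, ‖w‖ = 1 → ‖deriv ψ w‖ ≤ M) →
  ((1 / M : ℝ) : EReal) ≤ minmax ψ (Ext ψ) (ExtAdm ψ) 2

/-- `Cfi`: test functions `1` and `z.re`; `m = bd re / bd 1`; `bd ((c₀ + c₁ x)²) = c₁² bd ((x - m)²) + (c₀ + c₁ m)² bd 1`; the Dirichlet integral is
`c₁²` times the area (`setIntegral_const`). -/
def CfiStmt : Prop := ∀ (ψ : ℂ → ℂ), Chart ψ → ∀ D : ℝ, 0 < D →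
  D = bd ψ (fun z => (z.re - bd ψ (fun z => z.re) / bd ψ (fun _ => 1)) ^ 2) →
  minmax ψ (Inn ψ) (fun u => ContDiff ℝ 1 u) 2 ≤ ((volume.real (Inn ψ) / D : ℝ) : EReal)

/-- `Els`: the ellipse. Proof: `w = ρ e^{iθ}`: `ell a b w = A cos θ + i B sin θ`, `A = ((a+b) ρ + (a-b)/ρ)/2`, `B = ((a+b) ρ - (a-b)/ρ)/2`,
increasing to the right of `ρ = 1`; `ell a b w = z` is a quadratic equation for `w` with product of the roots `(a-b)/(a+b)`. -/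
def ElsStmt : Prop := ∀ a b : ℝ, 0 < b → b < a →
  Inn (ell a b) = {z : ℂ | (z.re / a) ^ 2 + (z.im / b) ^ 2 < 1} ∧
    Ext (ell a b) = {z : ℂ | 1 < (z.re / a) ^ 2 + (z.im / b) ^ 2}

/-- `Elv`: the area -/
def ElvStmt : Prop := ∀ a b : ℝ, 0 < a → 0 < b →
  volume.real {z : ℂ | (z.re / a) ^ 2 + (z.im / b) ^ 2 < 1} = Real.pi * a * b

/-- `Elc`: the chart. Injectivity: `ell a b w = ell a b w'` gives `w = w'` or `w w' = (a-b)/(a+b) < 1`. -/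
def ElcStmt : Prop := ∀ a b : ℝ, 0 < b → b < a → Chart (ell a b) ∧ ∀ w : ℂ, ‖w‖ = 1 → ‖deriv (ell a b) w‖ ≤ a

/-- `Elb`: the boundary integrals. `re (ell a b e^{iθ}) = a cos θ`; `‖deriv‖` has period `π`, is at least `b`, and larger than `b` at `θ = π/4`. -/
def ElbStmt : Prop := ∀ a b : ℝ, 0 < b → b < a →
  bd (ell a b) (fun z => z.re) = 0 ∧ Real.pi * a ^ 2 * b < bd (ell a b) (fun z => z.re ^ 2)

end Pool.Agent.H74.SX
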