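import Pool.Agent.H74.SX.Defs

set_option autoImplicit false

/-!
# [H74 SX Fub] the Dirichlet integral over a rectangle as a double integral (helper19)
-/

namespace Pool.Agent.H74.SX

open MeasureTheory Set Filter Topology

private theorem fub_pt (L : ℂ →L[ℝ] ℝ) : (L 1) ^ 2 + (L Complex.I) ^ 2 ≤ ‖L‖ ^ 2 := by
  set a := L 1 with ha
  set b := L Complex.I with hb
  have h1 : L ((a : ℂ) + b * Complex.I) = a ^ 2 + b ^ 2 := by
    have e : ((a : ℂ) + b * Complex.I) = a • (1 : ℂ) + b • Complex.I := by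
      rw [Complex.real_smul, Complex.real_smul, mul_one]
    rw [e, map_add, map_smul, map_smul, ← ha, ← hb, smul_eq_mul, smul_eq_mul]
    ring
  have h2 := L.le_opNorm ((a : ℂ) + b * Complex.I)
  rw [h1, Real.norm_of_nonneg (by positivity)] at h2
  have h3 : ‖(a : ℂ) + b * Complex.I‖ ^ 2 = a ^ 2 + b ^ 2 := by
    rw [← Complex.normSq_eq_norm_sq, Complex.normSq_add_mul_I]
  have h4 : (a ^ 2 + b ^ 2) ^ 2 ≤ ‖L‖ ^ 2 * (a ^ 2 + b ^ 2) := by
    have h5 := pow_le_pow_left₀ (by positivity) h2 2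
    rwa [mul_pow, h3] at h5
  rcases (by positivity : 0 ≤ a ^ 2 + b ^ 2).eq_or_lt with h6 | h6
  · rw [← h6]
    positivity
  · nlinarith

theorem fub {r : ℝ} {V : ℂ → ℝ} (hr : r < 0) (hV : ContDiffOn ℝ 1 V {ζ | r < ζ.re})
    (hI : IntegrableOn (fun ζ => ‖fderiv ℝ V ζ‖ ^ 2) Str) {T : ℝ} (hT : 0 ≤ T) :
    ∫ t in (0 : ℝ)..T, ∫ θ in (0 : ℝ)..(2 * Real.pi), ((fderiv ℝ V (t + θ * Complex.I) 1) ^ 2 +
      (fderiv ℝ V (t + θ * Complex.I) Complex.I) ^ 2) ≤ ∫ ζ in Str, ‖fderiv ℝ V ζ‖ ^ 2 := by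
  have hop : IsOpen {ζ : ℂ | r < ζ.re} := isOpen_lt continuous_const Complex.continuous_re
  have hc : ContinuousOn (fderiv ℝ V) {ζ : ℂ | r < ζ.re} := hV.continuousOn_fderiv_of_isOpen hop le_rfl
  set F : ℂ → ℝ := fun ζ => (fderiv ℝ V ζ 1) ^ 2 + (fderiv ℝ V ζ Complex.I) ^ 2 with hF
  have hFc : ContinuousOn F {ζ : ℂ | r < ζ.re} :=
    ((hc.clm_apply continuousOn_const).pow 2).add ((hc.clm_apply continuousOn_const).pow 2)
  set e := Complex.measurableEquivRealProd.symm with he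
  have hev : ∀ t θ : ℝ, e (t, θ) = t + θ * Complex.I := fun t θ => by
    apply Complex.ext <;> simp [he]
  have hme : MeasurePreserving e := Complex.volume_preserving_equiv_real_prod.symm _
  set S : Set ℂ := {ζ | 0 < ζ.re ∧ ζ.re < T ∧ 0 < ζ.im ∧ ζ.im < 2 * Real.pi} with hS
  have hSm : MeasurableSet S := by
    refine (measurableSet_lt measurable_const Complex.measurable_re).inter
      ((measurableSet_lt Complex.measurable_re measurable_const).inter
        ((measurableSet_lt measurable_const Complex.measurable_im).inter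
          (measurableSet_lt Complex.measurable_im measurable_const)))
  have hSS : S ⊆ Str := fun ζ h => ⟨h.1, h.2.2.1, h.2.2.2⟩
  have hpre : e ⁻¹' S = Ioo 0 T ×ˢ Ioo 0 (2 * Real.pi) := by
    ext ⟨t, θ⟩
    simp only [mem_preimage, hev, hS, mem_setOf_eq, mem_prod, mem_Ioo]
    simp
    tauto
  have h2pi : (0 : ℝ) ≤ 2 * Real.pi := by positivity
  have hGc : ContinuousOn (fun z : ℝ × ℝ => F (e z)) (Icc 0 T ×ˢ Icc 0 (2 * Real.pi)) := by
    have hcont : Continuous fun z : ℝ × ℝ => ((z.1 : ℂ) + z.2 * Complex.I) := by fun_prop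
    have h1 : (fun z : ℝ × ℝ => F (e z)) = F ∘ fun z : ℝ × ℝ => ((z.1 : ℂ) + z.2 * Complex.I) := by
      funext ⟨t, θ⟩
      rw [Function.comp_apply, hev]
    rw [h1]
    refine hFc.comp hcont.continuousOn fun z hz => ?_
    have h3 : (((z.1 : ℂ) + z.2 * Complex.I)).re = z.1 := by simp
    rw [mem_setOf_eq, h3]
    exact hr.trans_le hz.1.1
  have hGi : IntegrableOn (fun z : ℝ × ℝ => F (e z)) (Ioo 0 T ×ˢ Ioo 0 (2 * Real.pi)) :=
    (hGc.integrableOn_compact (isCompact_Icc.prod isCompact_Icc)).mono_set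
      (prod_mono Ioo_subset_Icc_self Ioo_subset_Icc_self)
  have h1 : ∫ t in (0 : ℝ)..T, ∫ θ in (0 : ℝ)..(2 * Real.pi), ((fderiv ℝ V (t + θ * Complex.I) 1) ^ 2 +
      (fderiv ℝ V (t + θ * Complex.I) Complex.I) ^ 2) = ∫ ζ in S, F ζ := by
    rw [← hme.setIntegral_preimage_emb e.measurableEmbedding, hpre, Measure.volume_eq_prod,
      setIntegral_prod _ hGi, intervalIntegral.integral_of_le hT, integral_Ioc_eq_integral_Ioo]
    refine setIntegral_congr_fun measurableSet_Ioo fun t _ => ?_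
    beta_reduce
    rw [intervalIntegral.integral_of_le h2pi, integral_Ioc_eq_integral_Ioo]
    refine setIntegral_congr_fun measurableSet_Ioo fun θ _ => ?_
    beta_reduce
    rw [hev]
  have hFS : IntegrableOn F S := by
    have := (hme.integrableOn_comp_preimage e.measurableEmbedding (f := F) (s := S)).1
    apply this
    rw [hpre]
    exact hGi
  rw [h1]
  refine (setIntegral_mono_on hFS (hI.mono_set hSS) hSm fun ζ _ => fub_pt _).trans ?_
  exact setIntegral_mono_set hI (Eventually.of_forall fun ζ => by positivity) hSS.eventuallyLE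

end Pool.Agent.H74.SX
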